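import Pool.Agent.CTS.Expl

/-!
# The sum with the linear factor, modulo `p^2`
-/

set_option autoImplicit false

namespace Pool.Agent.CTS

variable {R : Type*} [CommRing R] {p n : ℕ}

theorem q_of_Cg (h0 : (p : R) ^ 2 = 0) {x y : R} (h : Cg p x y) : (p : R) * x = (p : R) * y := by
  obtain ⟨r, h⟩ := h
  rw [h]
  linear_combination r * h0

theorem G_mul (hn : p = 2 * n + 1) (s : R) : (1 + s) ^ (2 * n) * (1 + s) = (1 + s) ^ p := by
  rw [hn, pow_succ]

theorem cGG_inert (hp : p.Prime) (hn : p = 2 * n + 1) (h0 : (p : R) ^ 2 = 0)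
    (h2 : IsUnit (2 : R)) {g w g' w' : R} (hg : g ^ 2 = g + 1)
    (hw : w ^ 2 = -1 - w) (hg' : g' ^ 2 = g' + 1) (hw' : w' ^ 2 = -1 - w')
    (fg : Fr p g g') (fw : Fr p w w') (hd : dD g' w' = -dD g w) :
    (p : R) * (8 * ((1 + sS g w) ^ (2 * n) * (1 + tT g w) ^ (2 * n))) = (p : R) * (dD g w - 7) := by
  have f1 : Fr p (1 + sS g w) (1 + sS g' w') := Fr.one.add hp (Fr_s hp fg fw)
  have f2 : Fr p (1 + tT g w) (1 + tT g' w') := Fr.one.add hp (Fr_t hp fg fw)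
  have f3 := q_of_Cg h0 (f1.mul f2)
  have c1 := two_c hg hw
  have c2 := two_c hg' hw'
  rw [hd] at c2
  have dd := d_sq hg hw
  have e1 : ((1 + sS g w) * (1 + tT g w)) ^ p = (1 + sS g w) ^ (2 * n) * (1 + tT g w) ^ (2 * n)
      * ((1 + sS g w) * (1 + tT g w)) := by
    rw [hn, pow_succ, mul_pow]
  rw [e1] at f3
  apply h2.mul_left_cancel
  set G := (1 + sS g w) ^ (2 * n) with hG
  set G' := (1 + tT g w) ^ (2 * n) with hG'
  set c := (1 + sS g w) * (1 + tT g w) with hc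
  set c' := (1 + sS g' w') * (1 + tT g' w') with hc'
  set d := dD g w with hd'
  set q := (p : R) with hq
  linear_combination (2 * (1 + d)) * f3 - ((1 + d) * q * (G * G')) * c1 + ((1 + d) * q) * c2
    + (q * (G * G') + q) * dd

theorem GG_split (hp : p.Prime) (hn : p = 2 * n + 1)
    (h2 : IsUnit (2 : R)) {g w g' w' : R} (hg : g ^ 2 = g + 1)
    (hw : w ^ 2 = -1 - w) (hg' : g' ^ 2 = g' + 1) (hw' : w' ^ 2 = -1 - w')
    (fg : Fr p g g') (fw : Fr p w w') (hd : dD g' w' = dD g w) :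
    ∃ r : R, (1 + sS g w) ^ (2 * n) * (1 + tT g w) ^ (2 * n) = 1 + (p : R) * r := by
  have f1 : Fr p (1 + sS g w) (1 + sS g' w') := Fr.one.add hp (Fr_s hp fg fw)
  have f2 : Fr p (1 + tT g w) (1 + tT g' w') := Fr.one.add hp (Fr_t hp fg fw)
  obtain ⟨r, f3⟩ := f1.mul f2
  have c1 := two_c hg hw
  have c2 := two_c hg' hw'
  rw [hd] at c2
  have dd := d_sq hg hw
  have e1 : ((1 + sS g w) * (1 + tT g w)) ^ p = (1 + sS g w) ^ (2 * n) * (1 + tT g w) ^ (2 * n)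
      * ((1 + sS g w) * (1 + tT g w)) := by
    rw [hn, pow_succ, mul_pow]
  rw [e1] at f3
  have h16 : IsUnit (16 : R) := by
    have := h2.pow 4
    norm_num at this
    exact this
  obtain ⟨v, hv⟩ := h16.exists_left_inv
  refine ⟨v * (2 * (1 + dD g w) * r), ?_⟩
  set G := (1 + sS g w) ^ (2 * n) with hG
  set G' := (1 + tT g w) ^ (2 * n) with hG'
  set c := (1 + sS g w) * (1 + tT g w) with hc
  set c' := (1 + sS g' w') * (1 + tT g' w') with hc'
  set d := dD g w with hd'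
  set q := (p : R) with hq
  have h1 : 16 * (G * G') = 16 + q * (2 * (1 + d) * r) := by
    linear_combination (2 * (1 + d)) * f3 - ((1 + d) * (G * G')) * c1 + (1 + d) * c2
      + (G * G' - 1) * dd
  linear_combination v * h1 - (G * G' - 1) * hv

theorem e_z (hp : p.Prime) (hn : p = 2 * n + 1) (x K : R) :
    ∃ r : R, 15 * (1 - x) * TP n x + K * PP n x
      = 15 * (1 - x) * TH n x + K * HH n x + (p : R) * r := by
  obtain ⟨r1, h1⟩ := PP_HH hp hn x
  obtain ⟨r2, h2⟩ := TP_TH hp hn x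
  refine ⟨15 * (1 - x) * r2 + K * r1, ?_⟩
  rw [h1, h2]
  ring

theorem D15 (hp : p.Prime) (hn : p = 2 * n + 1) (h0 : (p : R) ^ 2 = 0) (h2 : IsUnit (2 : R))
    {g w : R} (hg : g ^ 2 = g + 1) (hw : w ^ 2 = -1 - w) :
    15 * ((Dsum p : ℤ) : R) = -dD g w
      * ((15 * (1 - sS g w ^ 2) * TP n (sS g w ^ 2) + kK g w * PP n (sS g w ^ 2))
          * PP n (tT g w ^ 2)
        + PP n (sS g w ^ 2)
          * (15 * (1 - tT g w ^ 2) * TP n (tT g w ^ 2) + kL g w * PP n (tT g w ^ 2))) := by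
  have h1 := D_eq hp hn h0 h2 hg hw
  have h3 := hKd hg hw
  linear_combination 15 * h1 + (PP n (sS g w ^ 2) * PP n (tT g w ^ 2)) * h3

theorem unit_s (h2 : IsUnit (2 : R)) {g w : R} (hg : g ^ 2 = g + 1) (hw : w ^ 2 = -1 - w) :
    IsUnit (1 + sS g w) := by
  have h := inv1 hg hw
  rw [← h] at h2
  exact isUnit_of_mul_isUnit_left h2

theorem unit_15_2 (h2 : IsUnit (2 : R)) (h15 : IsUnit (15 : R)) (m : ℕ) :
    IsUnit ((2 : R) ^ m * 15) := (h2.pow m).mul h15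

theorem D_inert (hp : p.Prime) (hn : p = 2 * n + 1) (h0 : (p : R) ^ 2 = 0)
    (h2 : IsUnit (2 : R)) (h15 : IsUnit (15 : R)) {g w g' w' : R} (hg : g ^ 2 = g + 1)
    (hw : w ^ 2 = -1 - w) (hg' : g' ^ 2 = g' + 1) (hw' : w' ^ 2 = -1 - w')
    (fg : Fr p g g') (fw : Fr p w w') (hd : dD g' w' = -dD g w) {v : R}
    (hv : -dD g w * (((1 + sS g w) ^ 2 * (92 - 4 * dD g w) + 64)
        * (15 * (dD g w - 7) * sS g' w' ^ 2 + 240 * sS g' w')
      + (60 - 4 * dD g w) * (-15 * (1 + sS g w) ^ 2 * (dD g w - 7) * sS g' w' ^ 2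
        + 480 * sS g' w' ^ 2))
      = 480 * (1 + sS g w) * (1 + sS g' w') * (60 - 4 * dD g w) * v) :
    ((Dsum p : ℤ) : R) = (p : R) * v := by
  obtain ⟨⟨h1, hh⟩, ⟨k1, hk⟩⟩ := inert_zero hp hn h0 h2 h15 hg hw hg' hw' fg fw hd
  rw [zero_add] at hh hk
  obtain ⟨a1, ha⟩ := PP_HH hp hn (sS g w ^ 2)
  obtain ⟨b1, hb⟩ := PP_HH hp hn (tT g w ^ 2)
  have ha' : ∃ r, PP n (sS g w ^ 2) = (p : R) * r := ⟨h1 + a1, by rw [ha, hh]; ring⟩
  have hb' : ∃ r, PP n (tT g w ^ 2) = (p : R) * r := ⟨k1 + b1, by rw [hb, hk]; ring⟩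
  have hD := D15 hp hn h0 h2 hg hw
  obtain ⟨A, B⟩ := inert_alg h0 ⟨h1, hh⟩ ⟨k1, hk⟩ ha' hb'
    (e_z hp hn (sS g w ^ 2) (kK g w)) (e_z hp hn (tT g w ^ 2) (kL g w))
    (land_cong hp hn h0 (four_s hg hw)) (land_cong hp hn h0 (four_t hg hw))
    (E_gen hp hn h0 (four_s hg hw) (hK1 hg hw))
    (W_gen hp hn h0 (sS g w ^ 2) (kK g w)) (W_gen hp hn h0 (tT g w ^ 2) (kL g w)) hD
  have fs := Fr_s hp fg fw
  have ft := Fr_t hp fg fw
  have cG : (p : R) * ((1 + sS g w) ^ (2 * n) * (1 + sS g w)) = (p : R) * (1 + sS g' w') := by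
    rw [G_mul hn]
    exact q_of_Cg h0 (Fr.one.add hp fs)
  have cx : (p : R) * (sS g w ^ 2) ^ p = (p : R) * sS g' w' ^ 2 := by
    have := q_of_Cg h0 (fs.mul fs)
    rw [← pow_two, ← pow_two] at this
    exact this
  have cy : (p : R) * (tT g w ^ 2) ^ p = (p : R) * tT g' w' ^ 2 := by
    have := q_of_Cg h0 (ft.mul ft)
    rw [← pow_two, ← pow_two] at this
    exact this
  have hDq : ∃ r, ((Dsum p : ℤ) : R) = (p : R) * r := by
    obtain ⟨f, hf⟩ := h15.exists_left_inv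
    obtain ⟨a2, ha2⟩ := ha'
    obtain ⟨b2, hb2⟩ := hb'
    have h3 := congrArg (fun z => f * z) hD
    rw [← mul_assoc, hf, one_mul] at h3
    refine ⟨f * (-dD g w
      * ((15 * (1 - sS g w ^ 2) * TP n (sS g w ^ 2) + kK g w * PP n (sS g w ^ 2)) * b2
        + a2 * (15 * (1 - tT g w ^ 2) * TP n (tT g w ^ 2) + kL g w * PP n (tT g w ^ 2)))), ?_⟩
    linear_combination h3
      - (f * dD g w * (15 * (1 - sS g w ^ 2) * TP n (sS g w ^ 2) + kK g w * PP n (sS g w ^ 2))) * hb2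
      - (f * dD g w * (15 * (1 - tT g w ^ 2) * TP n (tT g w ^ 2) + kL g w * PP n (tT g w ^ 2))) * ha2
  have hP : ∃ r, HH n (sS g w ^ 2)
      * (15 * (1 - sS g w ^ 2) * TP n (sS g w ^ 2) + kK g w * PP n (sS g w ^ 2)) = (p : R) * r :=
    ⟨h1 * (15 * (1 - sS g w ^ 2) * TP n (sS g w ^ 2) + kK g w * PP n (sS g w ^ 2)), by
      rw [hh]
      ring⟩
  have F := fin_inert A B hP hDq cG cx cy
    (cGG_inert hp hn h0 h2 hg hw hg' hw' fg fw hd) (four_s hg' hw')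
  have hu : IsUnit (480 * (1 + sS g w) * (1 + sS g' w') * (60 - 4 * dD g w)) := by
    have u1 : IsUnit (480 : R) := by
      have := unit_15_2 h2 h15 5
      norm_num at this
      exact this
    have u2 : IsUnit (60 - 4 * dD g w) := by
      have h3 : IsUnit (3840 : R) := by
        have := unit_15_2 h2 h15 8
        norm_num at this
        exact this
      rw [← inv60 hg hw] at h3
      exact isUnit_of_mul_isUnit_left h3
    exact ((u1.mul (unit_s h2 hg hw)).mul (unit_s h2 hg' hw')).mul u2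
  apply hu.mul_left_cancel
  rw [F]
  linear_combination (p : R) * hv

theorem D_split (hp : p.Prime) (hn : p = 2 * n + 1) (h0 : (p : R) ^ 2 = 0)
    (h2 : IsUnit (2 : R)) (h15 : IsUnit (15 : R)) {g w g' w' : R} (hg : g ^ 2 = g + 1)
    (hw : w ^ 2 = -1 - w) (hg' : g' ^ 2 = g' + 1) (hw' : w' ^ 2 = -1 - w')
    (fg : Fr p g g') (fw : Fr p w w') (hd : dD g' w' = dD g w) {v : R}
    (hv : dD g w * ((2 + (1 + tT g w) ^ 2) * (15 * (1 + sS g w) ^ 4 * (1 + tT g w) ^ 2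
        * sS g' w' ^ 2 + 120 * (1 + sS g w) ^ 2 * sS g' w')
      + (4 - (1 + sS g w) ^ 2 * (1 + tT g w) ^ 2) * ((60 + 15 * (1 + tT g w) ^ 2)
        * (1 + sS g w) ^ 2 * sS g' w' ^ 2 + 240 * sS g' w'))
      = 120 * (1 + sS g w) * (1 + sS g' w') * (4 - (1 + sS g w) ^ 2 * (1 + tT g w) ^ 2) * v) :
    ((Dsum p : ℤ) : R) = (p : R) * v := by
  have hGG := GG_split hp hn h2 hg hw hg' hw' fg fw hd
  have hD := D15 hp hn h0 h2 hg hw
  have u60 : IsUnit (60 : R) := by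
    have := unit_15_2 h2 h15 2
    norm_num at this
    exact this
  have uD : IsUnit (4 - (1 + sS g w) ^ 2 * (1 + tT g w) ^ 2) := by
    have h3 := u60
    rw [← invD hg hw] at h3
    exact isUnit_of_mul_isUnit_left h3
  have u4 : IsUnit (4 : R) := by
    have := h2.pow 2
    norm_num at this
    exact this
  have r3 := E_gen hp hn h0 (four_s hg hw) (hK1 hg hw)
  have r4 := E_gen hp hn h0 (four_t hg hw) (hK2 hg hw)
  have ez := e_z hp hn (sS g w ^ 2) (kK g w)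
  have ez' := e_z hp hn (tT g w ^ 2) (kL g w)
  obtain ⟨⟨z1, hz⟩, ⟨z1', hz'⟩⟩ := split_div hGG ez ez' r3 r4 (u4.mul uD) u4
  obtain ⟨u, hu⟩ := ez
  obtain ⟨u', hu'⟩ := ez'
  have he : ∃ r, 15 * (1 - sS g w ^ 2) * TP n (sS g w ^ 2) + kK g w * PP n (sS g w ^ 2)
      = (p : R) * r := ⟨z1 + u, by rw [hu, hz]; ring⟩
  have he' : ∃ r, 15 * (1 - tT g w ^ 2) * TP n (tT g w ^ 2) + kL g w * PP n (tT g w ^ 2)
      = (p : R) * r := ⟨z1' + u', by rw [hu', hz']; ring⟩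
  have A := split_alg h0 hGG (h_Gk hp hn h0 h2 (four_s hg hw))
    (PP_HH hp hn (sS g w ^ 2)) (PP_HH hp hn (tT g w ^ 2)) he ⟨z1, hz⟩ he' ⟨z1', hz'⟩
    (land_cong hp hn h0 (four_s hg hw)) (land_cong hp hn h0 (four_t hg hw)) r3 r4
    (W_gen hp hn h0 (sS g w ^ 2) (kK g w)) (W_gen hp hn h0 (tT g w ^ 2) (kL g w)) hD
  have fs := Fr_s hp fg fw
  have ft := Fr_t hp fg fw
  have cG : (p : R) * ((1 + sS g w) ^ (2 * n) * (1 + sS g w)) = (p : R) * (1 + sS g' w') := by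
    rw [G_mul hn]
    exact q_of_Cg h0 (Fr.one.add hp fs)
  have cx : (p : R) * (sS g w ^ 2) ^ p = (p : R) * sS g' w' ^ 2 := by
    have := q_of_Cg h0 (fs.mul fs)
    rw [← pow_two, ← pow_two] at this
    exact this
  have cy : (p : R) * (tT g w ^ 2) ^ p = (p : R) * tT g' w' ^ 2 := by
    have := q_of_Cg h0 (ft.mul ft)
    rw [← pow_two, ← pow_two] at this
    exact this
  have hDq : ∃ r, ((Dsum p : ℤ) : R) = (p : R) * r := by
    obtain ⟨f, hf⟩ := h15.exists_left_inv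
    obtain ⟨e1, he1⟩ := he
    obtain ⟨e2, he2⟩ := he'
    have h3 := congrArg (fun z => f * z) hD
    rw [← mul_assoc, hf, one_mul] at h3
    refine ⟨f * (-dD g w * (e1 * PP n (tT g w ^ 2) + PP n (sS g w ^ 2) * e2)), ?_⟩
    linear_combination h3 - (f * dD g w * PP n (tT g w ^ 2)) * he1
      - (f * dD g w * PP n (sS g w ^ 2)) * he2
  have F := fin_split A hDq (hc hg hw) cG cx cy (four_s hg' hw')
  have hu : IsUnit (120 * (1 + sS g w) * (1 + sS g' w')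
      * (4 - (1 + sS g w) ^ 2 * (1 + tT g w) ^ 2)) := by
    have u1 : IsUnit (120 : R) := by
      have := unit_15_2 h2 h15 3
      norm_num at this
      exact this
    exact ((u1.mul (unit_s h2 hg hw)).mul (unit_s h2 hg' hw')).mul uD
  apply hu.mul_left_cancel
  rw [F]
  linear_combination (p : R) * hv

end Pool.Agent.CTS
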