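import Pool.Agent.CTS.Prod
import Mathlib

/-!
# Congruences for binomial coefficients modulo `p^2`, `p = 2n+1`
-/

set_option autoImplicit false

namespace Pool.Agent.CTS

open Finset

variable {p n : ℕ}

theorem unit_of_lt (hp : p.Prime) {m : ℕ} (h0 : 0 < m) (h1 : m < p) :
    IsUnit ((m : ℕ) : ZMod (p ^ 2)) := by
  rw [ZMod.isUnit_iff_coprime]
  exact Nat.Coprime.pow_right 2 ((Nat.coprime_comm.1 ((Nat.Prime.coprime_iff_not_dvd hp).2
    (Nat.not_dvd_of_pos_of_lt h0 h1))))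

theorem p_sq_zero (p : ℕ) : ((p : ZMod (p ^ 2))) ^ 2 = 0 := by
  have : ((p ^ 2 : ℕ) : ZMod (p ^ 2)) = 0 := ZMod.natCast_self _
  push_cast at this
  exact this

/-- the basic congruences -/
theorem basic (hp : p.Prime) (hn : p = 2 * n + 1) : ∀ k, k ≤ n → ∃ o : ZMod (p ^ 2),
    ((k.centralBinom : ℕ) : ZMod (p ^ 2)) = (-4) ^ k * ((n.choose k : ℕ) : ZMod (p ^ 2)) * (1 + (p : ZMod (p ^ 2)) * o)
    ∧ (((n + k).choose k : ℕ) : ZMod (p ^ 2))
      = (-1) ^ k * ((n.choose k : ℕ) : ZMod (p ^ 2)) * (1 + 2 * ((p : ZMod (p ^ 2)) * o)) := by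
  intro k
  induction k with
  | zero =>
    intro _
    refine ⟨0, ?_, ?_⟩ <;> simp
  | succ k ih =>
    intro hk
    obtain ⟨o, h1, h2⟩ := ih (by omega)
    have hu : IsUnit ((2 * k + 1 : ℕ) : ZMod (p ^ 2)) := unit_of_lt hp (by omega) (by omega)
    obtain ⟨w, hw⟩ := hu.exists_right_inv
    have hk1 : IsUnit ((k + 1 : ℕ) : ZMod (p ^ 2)) := unit_of_lt hp (by omega) (by omega)
    have hpn : (p : ZMod (p ^ 2)) = 2 * n + 1 := by
      have := congrArg (Nat.cast : ℕ → ZMod (p ^ 2)) hn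
      push_cast at this
      exact this
    have hp2 := p_sq_zero p
    have c1 : ((k : ZMod (p ^ 2)) + 1) * (((k + 1).centralBinom : ℕ) : ZMod (p ^ 2))
        = 2 * (2 * k + 1) * ((k.centralBinom : ℕ) : ZMod (p ^ 2)) := by
      have := congrArg (Nat.cast : ℕ → ZMod (p ^ 2)) (Nat.succ_mul_centralBinom_succ k)
      push_cast at this
      exact this
    have c2 : ((k : ZMod (p ^ 2)) + 1) * ((n.choose (k + 1) : ℕ) : ZMod (p ^ 2))
        = ((n : ZMod (p ^ 2)) - k) * ((n.choose k : ℕ) : ZMod (p ^ 2)) := by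
      have := congrArg (Int.cast : ℤ → ZMod (p ^ 2)) (choose_up n k)
      push_cast at this
      exact this
    have c3 : ((k : ZMod (p ^ 2)) + 1) * (((n + (k + 1)).choose (k + 1) : ℕ) : ZMod (p ^ 2))
        = ((n : ZMod (p ^ 2)) + k + 1) * (((n + k).choose k : ℕ) : ZMod (p ^ 2)) := by
      have := congrArg (Nat.cast : ℕ → ZMod (p ^ 2)) (Nat.add_one_mul_choose_eq (n + k) k)
      push_cast at this
      have h5 : n + (k + 1) = n + k + 1 := rfl
      rw [h5]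
      linear_combination -this
    push_cast at hw hk1
    refine ⟨o + w, ?_, ?_⟩
    · apply hk1.mul_left_cancel
      rw [c1, h1]
      have c2' : ((k : ZMod (p ^ 2)) + 1) * ((-4) ^ (k + 1) * ((n.choose (k + 1) : ℕ) : ZMod (p ^ 2))
          * (1 + (p : ZMod (p ^ 2)) * (o + w))) = (-4) ^ (k + 1) * (1 + (p : ZMod (p ^ 2)) * (o + w))
          * (((n : ZMod (p ^ 2)) - k) * ((n.choose k : ℕ) : ZMod (p ^ 2))) := by
        rw [← c2]
        ring
      rw [c2', pow_succ (-4 : ZMod (p ^ 2)) k]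
      linear_combination (2 * (-4) ^ k * ((n.choose k : ℕ) : ZMod (p ^ 2)) * (o + w)) * hp2
        - (2 * (-4) ^ k * ((n.choose k : ℕ) : ZMod (p ^ 2)) * p) * hw
        + (-2 * (-4) ^ k * ((n.choose k : ℕ) : ZMod (p ^ 2)) * (1 + (p : ZMod (p ^ 2)) * (o + w))) * hpn
    · apply hk1.mul_left_cancel
      rw [c3, h2]
      have c2' : ((k : ZMod (p ^ 2)) + 1) * ((-1) ^ (k + 1) * ((n.choose (k + 1) : ℕ) : ZMod (p ^ 2))
          * (1 + 2 * ((p : ZMod (p ^ 2)) * (o + w)))) = (-1) ^ (k + 1) * (1 + 2 * ((p : ZMod (p ^ 2)) * (o + w)))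
          * (((n : ZMod (p ^ 2)) - k) * ((n.choose k : ℕ) : ZMod (p ^ 2))) := by
        rw [← c2]
        ring
      rw [c2', pow_succ (-1 : ZMod (p ^ 2)) k]
      have h2u : IsUnit (2 : ZMod (p ^ 2)) := by
        have := unit_of_lt hp (m := 2) (by omega) (by omega)
        push_cast at this
        exact this
      apply h2u.mul_left_cancel
      linear_combination (2 * (-1) ^ k * ((n.choose k : ℕ) : ZMod (p ^ 2)) * (2 * o + w)) * hp2
        - (2 * (-1) ^ k * ((n.choose k : ℕ) : ZMod (p ^ 2)) * p) * hw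
        + (-(-1) ^ k * ((n.choose k : ℕ) : ZMod (p ^ 2)) * (2 + 4 * ((p : ZMod (p ^ 2)) * o) + 2 * ((p : ZMod (p ^ 2)) * w))) * hpn

/-- `2 C(n,k) C(2k,k) (-1)^k = 4^k ((-1)^k AA n k + C(n,k)^2)` -/
theorem cong_mid (hp : p.Prime) (hn : p = 2 * n + 1) {k : ℕ} (hk : k ≤ n) :
    2 * (-1) ^ k * ((n.choose k : ℕ) : ZMod (p ^ 2)) * ((k.centralBinom : ℕ) : ZMod (p ^ 2))
      = 4 ^ k * ((-1) ^ k * (AA n k : ZMod (p ^ 2)) + ((n.choose k : ℕ) : ZMod (p ^ 2)) ^ 2) := by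
  obtain ⟨o, h1, h2⟩ := basic hp hn k hk
  have h3 : (AA n k : ZMod (p ^ 2)) = ((n.choose k : ℕ) : ZMod (p ^ 2))
      * (((n + k).choose k : ℕ) : ZMod (p ^ 2)) := by
    unfold AA
    push_cast
    ring
  rw [h3, h1, h2]
  have h4 : (-1 : ZMod (p ^ 2)) ^ k * (-4) ^ k = 4 ^ k := by
    rw [← mul_pow]
    norm_num
  have h5 : (-1 : ZMod (p ^ 2)) ^ k * (-1) ^ k = 1 := by
    rw [← mul_pow]
    norm_num
  linear_combination (2 * ((n.choose k : ℕ) : ZMod (p ^ 2)) ^ 2 * (1 + (p : ZMod (p ^ 2)) * o)) * h4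
    - (4 ^ k * ((n.choose k : ℕ) : ZMod (p ^ 2)) ^ 2 * (1 + 2 * ((p : ZMod (p ^ 2)) * o))) * h5

/-- `(-1)^k AA n k = C(n,k)^2 + p (..)` -/
theorem cong_p (hp : p.Prime) (hn : p = 2 * n + 1) {k : ℕ} (hk : k ≤ n) :
    ∃ r : ZMod (p ^ 2), (-1) ^ k * (AA n k : ZMod (p ^ 2))
      = ((n.choose k : ℕ) : ZMod (p ^ 2)) ^ 2 + (p : ZMod (p ^ 2)) * r := by
  obtain ⟨o, h1, h2⟩ := basic hp hn k hk
  have h3 : (AA n k : ZMod (p ^ 2)) = ((n.choose k : ℕ) : ZMod (p ^ 2))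
      * (((n + k).choose k : ℕ) : ZMod (p ^ 2)) := by
    unfold AA
    push_cast
    ring
  refine ⟨2 * o * ((n.choose k : ℕ) : ZMod (p ^ 2)) ^ 2, ?_⟩
  rw [h3, h2]
  have h5 : (-1 : ZMod (p ^ 2)) ^ k * (-1) ^ k = 1 := by
    rw [← mul_pow]
    norm_num
  linear_combination (((n.choose k : ℕ) : ZMod (p ^ 2)) ^ 2 * (1 + 2 * ((p : ZMod (p ^ 2)) * o))) * h5

/-- `C(2k,k)^2 = (-16)^k AA n k` -/
theorem cong_sq (hp : p.Prime) (hn : p = 2 * n + 1) {k : ℕ} (hk : k ≤ n) :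
    ((k.centralBinom : ℕ) : ZMod (p ^ 2)) ^ 2 = (-16) ^ k * (AA n k : ZMod (p ^ 2)) := by
  obtain ⟨o, h1, h2⟩ := basic hp hn k hk
  have h3 : (AA n k : ZMod (p ^ 2)) = ((n.choose k : ℕ) : ZMod (p ^ 2))
      * (((n + k).choose k : ℕ) : ZMod (p ^ 2)) := by
    unfold AA
    push_cast
    ring
  rw [h3, h1, h2]
  have h4 : ((-4 : ZMod (p ^ 2)) ^ k) ^ 2 = (-16) ^ k * (-1) ^ k := by
    rw [← mul_pow, ← pow_mul, Nat.mul_comm, pow_mul]
    norm_num
  have hp2 := p_sq_zero p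
  linear_combination (((n.choose k : ℕ) : ZMod (p ^ 2)) ^ 2 * (1 + (p : ZMod (p ^ 2)) * o) ^ 2) * h4
    + ((-16) ^ k * (-1) ^ k * ((n.choose k : ℕ) : ZMod (p ^ 2)) ^ 2 * o ^ 2) * hp2

/-- `p ∣ C(2k,k)` for `n < k < p` -/
theorem p_dvd (hp : p.Prime) (hn : p = 2 * n + 1) : ∀ k, n < k → k < p → p ∣ k.centralBinom := by
  intro k
  induction k with
  | zero => intro h _; omega
  | succ k ih =>
    intro h1 h2
    have h3 := Nat.succ_mul_centralBinom_succ k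
    have h4 : p ∣ (k + 1) * (k + 1).centralBinom := by
      rw [h3]
      rcases Nat.lt_or_ge n k with h | h
      · exact Dvd.dvd.mul_left (ih h (by omega)) _
      · have : k = n := by omega
        subst this
        exact Dvd.dvd.mul_right (by rw [hn]; exact Dvd.intro_left 2 rfl) _
    rcases (Nat.Prime.dvd_mul hp).1 h4 with h | h
    · exact absurd h (Nat.not_dvd_of_pos_of_lt (by omega) h2)
    · exact h

theorem cong_zero (hp : p.Prime) (hn : p = 2 * n + 1) {k : ℕ} (hk : n < k) (hkp : k < p) :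
    ((k.centralBinom : ℕ) : ZMod (p ^ 2)) ^ 2 = 0 := by
  have h : p ^ 2 ∣ k.centralBinom ^ 2 := pow_dvd_pow_of_dvd (p_dvd hp hn k hk hkp) 2
  have := (ZMod.natCast_eq_zero_iff _ _).2 h
  push_cast at this
  exact this

end Pool.Agent.CTS
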