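import Pool.Agent.CTS.Sum

/-!
# The relations modulo `p^2` and their elimination
-/

set_option autoImplicit false

namespace Pool.Agent.CTS

variable {R : Type*} [CommRing R] {p n : ℕ}

theorem E_gen (hp : p.Prime) (hn : p = 2 * n + 1) (h0 : (p : R) ^ 2 = 0) {s Y K K' : R}
    (h : 4 * s = Y * (1 + s) ^ 2) (hK : 2 * K = (1 + s) ^ 2 * K' + 15 * (s * (1 - s))) :
    4 * (15 * (1 - s ^ 2) * TH n (s ^ 2) + K * HH n (s ^ 2))
      = (1 + s) ^ (2 * n) * ((1 + s) ^ 2 * ((15 * (1 - Y) * TP n Y + K' * PP n Y)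
          + (15 * (1 - Y) * TH n Y + K' * HH n Y))
        + 15 * (p : R) * (s * (1 - s)) * (PP n Y + HH n Y)) := by
  have h1 := land_cong hp hn h0 h
  have h2 := land_deriv_cong hp hn h0 h
  linear_combination (15 * (1 - s)) * h2 + 2 * K * h1
    + ((1 + s) ^ (2 * n) * (PP n Y + HH n Y)) * hK
    - (15 * (1 + s) ^ (2 * n) * (TP n Y + TH n Y)) * h

theorem W_gen (hp : p.Prime) (hn : p = 2 * n + 1) (h0 : (p : R) ^ 2 = 0) (x K : R) :
    2 * (HH n x * (15 * (1 - x) * TP n x + K * PP n x)
        - PP n x * (15 * (1 - x) * TH n x + K * HH n x))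
      = 15 * (p : R) * (x * HH n x ^ 2 - x ^ p) := by
  have h1 := wron hp hn h0 x
  have h2 : x ^ p = x ^ (2 * n) * x := by rw [hn, pow_succ]
  rw [h2]
  linear_combination 15 * h1

/-- elimination in the inert case -/
theorem inert_alg {q h k a b e z e' z' G G' L T X Y d x y D : R} (h0 : q ^ 2 = 0)
    (hh : ∃ r, h = q * r) (hk : ∃ r, k = q * r) (ha : ∃ r, a = q * r) (hb : ∃ r, b = q * r)
    (he : ∃ r, e = z + q * r) (he' : ∃ r, e' = z' + q * r)
    (r1 : 2 * h = G * (b + k)) (r2 : 2 * k = G' * (a + h))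
    (r3 : 4 * z = G * (L * (e' + z') + 15 * q * T * (b + k)))
    (r5 : 2 * (h * e - a * z) = 15 * q * (X * h ^ 2 - x))
    (r6 : 2 * (k * e' - b * z') = 15 * q * (Y * k ^ 2 - y))
    (hD : 15 * D = -d * (e * b + a * e')) :
    8 * (h * e) = 2 * G * G' * (4 * (h * e) + 15 * q * x) + 15 * G ^ 2 * L * q * y
    ∧ 60 * G * L * D = -d * (L * (8 * (h * e) - G * G' * (4 * (h * e) + 15 * q * x))
        + 8 * (h * e) + 60 * q * x) := by
  obtain ⟨h1, hh⟩ := hh
  obtain ⟨k1, hk⟩ := hk
  obtain ⟨a1, ha⟩ := ha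
  obtain ⟨b1, hb⟩ := hb
  obtain ⟨u, he⟩ := he
  obtain ⟨u', he'⟩ := he'
  have hz : h * z = h * e := by
    rw [hh, he]
    linear_combination (-h1 * u) * h0
  have kz : k * z = k * e := by
    rw [hk, he]
    linear_combination (-k1 * u) * h0
  have az : a * z = a * e := by
    rw [ha, he]
    linear_combination (-a1 * u) * h0
  have hz' : h * z' = h * e' := by
    rw [hh, he']
    linear_combination (-h1 * u') * h0
  have kz' : k * z' = k * e' := by
    rw [hk, he']
    linear_combination (-k1 * u') * h0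
  have az' : a * z' = a * e' := by
    rw [ha, he']
    linear_combination (-a1 * u') * h0
  have bz' : b * z' = b * e' := by
    rw [hb, he']
    linear_combination (-b1 * u') * h0
  have qh : q * h = 0 := by
    rw [hh]
    linear_combination h1 * h0
  have qk : q * k = 0 := by
    rw [hk]
    linear_combination k1 * h0
  have qa : q * a = 0 := by
    rw [ha]
    linear_combination a1 * h0
  have qb : q * b = 0 := by
    rw [hb]
    linear_combination b1 * h0
  -- (5) and (6)
  have U5 : 2 * (a * e) = 2 * (h * e) + 15 * q * x := by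
    linear_combination -2 * az - r5 - (15 * X * h) * qh
  have V6 : 2 * (b * e') = 2 * (k * e') + 15 * q * y := by
    linear_combination -2 * bz' - r6 - (15 * Y * k) * qk
  -- (3) multiplied
  have P3 : 4 * (h * e) = 2 * G * L * (h * e') := by
    linear_combination -4 * hz + h * r3 + (G * L) * hz' + (15 * G * T * (b + k)) * qh
  have Q3 : 4 * (k * e) = 2 * G * L * (k * e') := by
    linear_combination -4 * kz + k * r3 + (G * L) * kz' + (15 * G * T * (b + k)) * qk
  have U3 : 4 * (a * e) = 2 * G * L * (a * e') := by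
    linear_combination -4 * az + a * r3 + (G * L) * az' + (15 * G * T * (b + k)) * qa
  -- Q from P
  have Q4 : 4 * (k * e) = G' * (4 * (h * e) + 15 * q * x) := by
    linear_combination (2 * e) * r2 + G' * U5
  have P4' : 4 * (h * e') = G * (4 * (k * e') + 15 * q * y) := by
    linear_combination (2 * e') * r1 + G * V6
  have P8 : 8 * (h * e) = 8 * G * (k * e) + 15 * G ^ 2 * L * q * y := by
    linear_combination 2 * P3 + (G * L) * P4' - 2 * G * Q3
  constructor
  · linear_combination P8 + 2 * G * Q4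
  · linear_combination (4 * G * L) * hD - (4 * d * L * e) * r1 * (-1) + (2 * d) * U3 - (4 * d) * U5
      + (d * G * L) * Q4

/-- in the split case everything in sight is divisible by `p` -/
theorem split_div {q h k a b e z e' z' G G' L L' T T' : R}
    (hG : ∃ r, G * G' = 1 + q * r)
    (he : ∃ r, e = z + q * r) (he' : ∃ r, e' = z' + q * r)
    (r3 : 4 * z = G * (L * (e' + z') + 15 * q * T * (b + k)))
    (r4 : 4 * z' = G' * (L' * (e + z) + 15 * q * T' * (a + h)))
    (hu : IsUnit (4 * (4 - L * L'))) (h4 : IsUnit (4 : R)) :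
    (∃ r, z = q * r) ∧ (∃ r, z' = q * r) := by
  obtain ⟨m, hG⟩ := hG
  obtain ⟨u, he⟩ := he
  obtain ⟨u', he'⟩ := he'
  obtain ⟨v, hv⟩ := hu.exists_left_inv
  obtain ⟨f, hf⟩ := h4.exists_left_inv
  have s3 : 4 * z = 2 * G * L * z' + q * (G * L * u' + 15 * G * T * (b + k)) := by
    rw [he'] at r3
    linear_combination r3
  have s4 : 4 * z' = 2 * G' * L' * z + q * (G' * L' * u + 15 * G' * T' * (a + h)) := by
    rw [he] at r4
    linear_combination r4
  have s5 : 4 * (4 - L * L') * z = q * (4 * L * L' * m * z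
      + 2 * G * L * (G' * L' * u + 15 * G' * T' * (a + h))
      + 4 * (G * L * u' + 15 * G * T * (b + k))) := by
    linear_combination 4 * s3 + (2 * G * L) * s4 + (4 * L * L' * z) * hG
  have s6 : z = q * (v * (4 * L * L' * m * z
      + 2 * G * L * (G' * L' * u + 15 * G' * T' * (a + h))
      + 4 * (G * L * u' + 15 * G * T * (b + k)))) := by
    linear_combination v * s5 - z * hv
  refine ⟨⟨_, s6⟩, ?_⟩
  obtain ⟨z1, hz1⟩ : ∃ r, z = q * r := ⟨_, s6⟩
  refine ⟨f * (2 * G' * L' * z1 + (G' * L' * u + 15 * G' * T' * (a + h))), ?_⟩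
  rw [hz1] at s4
  linear_combination f * s4 - z' * hf

/-- elimination in the split case -/
theorem split_alg {q h k a b e z e' z' G G' L L' T T' X Y d x y D : R} (h0 : q ^ 2 = 0)
    (hG : ∃ r, G * G' = 1 + q * r) (hh : ∃ r, h = G * k + q * r)
    (ha : ∃ r, a = h + q * r) (hb : ∃ r, b = k + q * r)
    (he : ∃ r, e = q * r) (hz : ∃ r, z = q * r) (he' : ∃ r, e' = q * r) (hz' : ∃ r, z' = q * r)
    (r1 : 2 * h = G * (b + k)) (r2 : 2 * k = G' * (a + h))
    (r3 : 4 * z = G * (L * (e' + z') + 15 * q * T * (b + k)))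
    (r4 : 4 * z' = G' * (L' * (e + z) + 15 * q * T' * (a + h)))
    (r5 : 2 * (h * e - a * z) = 15 * q * (X * h ^ 2 - x))
    (r6 : 2 * (k * e' - b * z') = 15 * q * (Y * k ^ 2 - y))
    (hD : 15 * D = -d * (e * b + a * e')) :
    120 * G * (4 - L * L') * D = -d * q * ((2 + L') * (15 * L * L' * (X * h ^ 2 - x)
        + 60 * L * T' * h ^ 2 + 30 * L * (Y * h ^ 2 - G ^ 2 * y) + 120 * T * h ^ 2)
      + (4 - L * L') * (60 * (X * h ^ 2 - x) + 15 * L' * (X * h ^ 2 - x) + 60 * T' * h ^ 2
        + 60 * (Y * h ^ 2 - G ^ 2 * y))) := by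
  obtain ⟨m, hG⟩ := hG
  obtain ⟨hr, hh⟩ := hh
  obtain ⟨ar, ha⟩ := ha
  obtain ⟨br, hb⟩ := hb
  obtain ⟨e1, he⟩ := he
  obtain ⟨z1, hz⟩ := hz
  obtain ⟨e1', he'⟩ := he'
  obtain ⟨z1', hz'⟩ := hz'
  have az : a * z = h * z := by
    rw [ha, hz]
    linear_combination (ar * z1) * h0
  have ae' : a * e' = h * e' := by
    rw [ha, he']
    linear_combination (ar * e1') * h0
  have bz' : b * z' = k * z' := by
    rw [hb, hz']
    linear_combination (br * z1') * h0
  have eb : e * b = e * k := by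
    rw [hb, he]
    linear_combination (br * e1) * h0
  have Gke : G * k * e = h * e := by
    rw [he]
    linear_combination (-q * e1) * hh + (-hr * e1) * h0
  have Gke' : G * k * e' = h * e' := by
    rw [he']
    linear_combination (-q * e1') * hh + (-hr * e1') * h0
  have Gkz' : G * k * z' = h * z' := by
    rw [hz']
    linear_combination (-q * z1') * hh + (-hr * z1') * h0
  have GGe : G * G' * e = e := by
    rw [he]
    linear_combination (q * e1) * hG + (m * e1) * h0
  have GGz : G * G' * z = z := by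
    rw [hz]
    linear_combination (q * z1) * hG + (m * z1) * h0
  have qGk : q * (G * k) = q * h := by
    linear_combination (-q) * hh - hr * h0
  have E5 : 2 * (h * e - h * z) = 15 * q * (X * h ^ 2 - x) := by
    linear_combination r5 + 2 * az
  have E6 : 2 * (G * (h * e') - G * (h * z')) = 15 * q * (Y * h ^ 2 - G ^ 2 * y) := by
    have e1 : q * (Y * (G ^ 2 * k ^ 2)) = q * (Y * h ^ 2) := by
      linear_combination (Y * G * k + Y * h) * qGk
    linear_combination G ^ 2 * r6 + 15 * e1 - 2 * G * Gke' + 2 * G * Gkz' + 2 * G ^ 2 * bz'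
  have E3 : 4 * (h * z) = L * (G * (h * e') + G * (h * z')) + 30 * q * T * h ^ 2 := by
    linear_combination h * r3 - (15 * q * T * h) * r1
  have E4 : 4 * (G * (h * z')) = L' * (h * e + h * z) + 30 * q * T' * h ^ 2 := by
    linear_combination (G * h) * r4 + (L' * h) * GGe + (L' * h) * GGz
      - (15 * q * T' * G * h) * r2 + (30 * T' * h) * qGk
  have E7 : 15 * G * D = -d * (h * e + G * (h * e')) := by
    linear_combination G * hD - (d * G) * eb - d * Gke - (d * G) * ae'
  have E8 : (16 - 4 * (L * L')) * (h * z) = q * (15 * L * L' * (X * h ^ 2 - x)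
        + 60 * L * T' * h ^ 2 + 30 * L * (Y * h ^ 2 - G ^ 2 * y) + 120 * T * h ^ 2) := by
    linear_combination 4 * E3 + (2 * L) * E4 + (2 * L) * E6 + (L * L') * E5
  have E9 : 8 * (h * e + G * (h * e')) = (8 + 4 * L') * (h * z)
      + q * (60 * (X * h ^ 2 - x) + 15 * L' * (X * h ^ 2 - x) + 60 * T' * h ^ 2
        + 60 * (Y * h ^ 2 - G ^ 2 * y)) := by
    linear_combination (4 + L') * E5 + 4 * E6 + 2 * E4
  linear_combination (8 * (4 - L * L')) * E7 - (d * (4 - L * L')) * E9 - (d * (2 + L')) * E8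

end Pool.Agent.CTS
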