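import Pool.Agent.CTS.Prod

/-!
# The double sum at the special point

If `X(1-Y) + Y(1-X) = -16` and `XY(1-X)(1-Y) = 256`, then `EE n k X Y = 16^k T_k`, where `T_k` is the
central trinomial coefficient.
-/

set_option autoImplicit false

namespace Pool.Agent.CTS

open Finset Polynomial

/-- the central trinomial coefficient -/
noncomputable def tri (k : ℕ) : ℤ := ((1 + X + X ^ 2 : ℤ[X]) ^ k).coeff k

section ring

variable {R : Type*} [CommRing R]

theorem pow_expand {n k : ℕ} (hk : k ≤ n) (z : R) :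
    ((1 : R[X]) - C z * (1 + X)) ^ k
      = ∑ a ∈ range (n + 1), C ((-1) ^ a * (k.choose a : R) * z ^ a) * (1 + X) ^ a := by
  have h1 : ((1 : R[X]) - C z * (1 + X)) ^ k
      = ∑ a ∈ range (k + 1), C ((-1) ^ a * (k.choose a : R) * z ^ a) * (1 + X) ^ a := by
    have h0 : ((1 : R[X]) - C z * (1 + X)) = (-(C z * (1 + X))) + 1 := by ring
    rw [h0, add_pow]
    apply sum_congr rfl
    intro a _
    rw [one_pow, mul_one, neg_pow, mul_pow]
    simp only [map_mul, map_pow, map_neg, map_one, map_natCast]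
    ring
  rw [h1]
  apply sum_subset
  · intro a ha
    rw [mem_range] at *
    omega
  · intro a _ ha
    rw [mem_range, not_lt] at ha
    rw [Nat.choose_eq_zero_of_lt (by omega : k < a)]
    simp

theorem EE_coeff {n k : ℕ} (hk : k ≤ n) (x y : R) :
    EE n k x y = ((((1 : R[X]) - C x * (1 + X)) * (1 - C y * (1 + X))) ^ k).coeff k := by
  rw [mul_pow, pow_expand hk, pow_expand hk, sum_mul_sum, finsetSum_coeff]
  unfold EE
  apply sum_congr rfl
  intro a _
  rw [finsetSum_coeff]
  apply sum_congr rfl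
  intro b _
  have h1 : C ((-1) ^ a * (k.choose a : R) * x ^ a) * (1 + X) ^ a
      * (C ((-1) ^ b * (k.choose b : R) * y ^ b) * (1 + X) ^ b)
      = C (((-1) ^ a * (k.choose a : R) * x ^ a) * ((-1) ^ b * (k.choose b : R) * y ^ b))
        * (1 + X) ^ (a + b) := by
    rw [pow_add]
    simp only [map_mul, map_pow, map_neg, map_one, map_natCast]
    ring
  rw [h1, coeff_C_mul, coeff_one_add_X_pow]
  unfold cc
  push_cast
  ring

theorem tri_coeff (k : ℕ) : ((1 + X + X ^ 2 : R[X]) ^ k).coeff k = (tri k : R) := by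
  have h : (1 + X + X ^ 2 : R[X]) = (1 + X + X ^ 2 : ℤ[X]).map (Int.castRingHom R) := by
    simp
  rw [h, ← Polynomial.map_pow, coeff_map]
  rfl

theorem EE_eval {n k : ℕ} (hk : k ≤ n) {x y : R} (h2 : IsUnit (2 : R))
    (h1 : x * (1 - y) + y * (1 - x) = -16) (h0 : (1 - x) * (1 - y) * (x * y) = 256) :
    EE n k x y = 16 ^ k * (tri k : R) := by
  rw [EE_coeff hk]
  set f : R[X] := ((1 : R[X]) - C x * (1 + X)) * (1 - C y * (1 + X)) with hf
  set g : R[X] := 256 + 16 * X + X ^ 2 with hg
  have hxy : IsUnit (x * y) := by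
    have h256 : IsUnit (256 : R) := by
      have : (256 : R) = 2 ^ 8 := by norm_num
      rw [this]
      exact h2.pow 8
    rw [← h0] at h256
    exact isUnit_of_mul_isUnit_right h256
  have h16 : IsUnit (16 : R) := by
    have : (16 : R) = 2 ^ 4 := by norm_num
    rw [this]
    exact h2.pow 4
  have e1 : C (x * y) * f = g.comp (C (x * y) * X) := by
    rw [hf, hg]
    have c1 : C (x * (1 - y) + y * (1 - x)) = (C (-16) : R[X]) := by rw [h1]
    have c0 : C ((1 - x) * (1 - y) * (x * y)) = (C 256 : R[X]) := by rw [h0]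
    simp only [map_mul, map_add, map_sub, map_neg, map_one] at c1 c0
    have c16 : (C 16 : R[X]) = 16 := by
      exact map_ofNat C 16
    have c256 : (C 256 : R[X]) = 256 := by
      exact map_ofNat C 256
    rw [c16] at c1
    rw [c256] at c0
    have k256 : (256 : R[X]).comp (C x * C y * X) = 256 := by
      rw [← c256, C_comp]
    have k16 : (16 : R[X]).comp (C x * C y * X) = 16 := by
      rw [← c16, C_comp]
    simp only [add_comp, mul_comp, pow_comp, X_comp, map_mul, k256, k16]
    linear_combination c0 - (C x * C y * X) * c1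
  have e2 : g.comp (C 16 * X) = C 256 * (1 + X + X ^ 2) := by
    rw [hg]
    have c16 : (C 16 : R[X]) = 16 := by
      exact map_ofNat C 16
    have c256 : (C 256 : R[X]) = 256 := by
      exact map_ofNat C 256
    have k256 : (256 : R[X]).comp (16 * X) = 256 := by
      rw [← c256, C_comp]
    have k16 : (16 : R[X]).comp (16 * X) = 16 := by
      rw [← c16, C_comp]
    rw [c16, c256]
    simp only [add_comp, mul_comp, pow_comp, X_comp, k256, k16]
    ring
  have e3 : (f ^ k).coeff k = (g ^ k).coeff k := by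
    have h3 : (C (x * y) * f) ^ k = (g ^ k).comp (C (x * y) * X) := by
      rw [e1, pow_comp]
    have h4 := congrArg (fun q => q.coeff k) h3
    simp only [comp_C_mul_X_coeff] at h4
    rw [mul_pow, ← C_pow, coeff_C_mul] at h4
    have h5 : IsUnit ((x * y) ^ k) := hxy.pow k
    apply h5.mul_left_cancel
    rw [h4]
    ring
  have e4 : (g ^ k).coeff k = 16 ^ k * (tri k : R) := by
    have h3 : (g ^ k).comp (C 16 * X) = (C 256 * (1 + X + X ^ 2)) ^ k := by
      rw [← e2, pow_comp]
    have h4 := congrArg (fun q => q.coeff k) h3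
    simp only [comp_C_mul_X_coeff] at h4
    rw [mul_pow, ← C_pow, coeff_C_mul, tri_coeff] at h4
    have h5 : IsUnit ((16 : R) ^ k) := h16.pow k
    apply h5.mul_left_cancel
    have h6 : (256 : R) ^ k = 16 ^ k * 16 ^ k := by
      rw [← mul_pow]
      norm_num
    rw [h6] at h4
    linear_combination h4
  rw [e3, e4]

/-- the product formula at the special point -/
theorem PP_eval (n : ℕ) {x y : R} (h2 : IsUnit (2 : R))
    (h1 : x * (1 - y) + y * (1 - x) = -16) (h0 : (1 - x) * (1 - y) * (x * y) = 256) :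
    PP n x * PP n y = ∑ k ∈ range (n + 1), (AA n k : R) * (16 ^ k * (tri k : R)) := by
  rw [PP_mul]
  apply sum_congr rfl
  intro k hk
  rw [mem_range] at hk
  rw [EE_eval (by omega : k ≤ n) h2 h1 h0]

theorem TP_eval (n : ℕ) {x y : R} (h2 : IsUnit (2 : R))
    (h1 : x * (1 - y) + y * (1 - x) = -16) (h0 : (1 - x) * (1 - y) * (x * y) = 256) :
    (1 - x) * TP n x * PP n y + (1 - y) * PP n x * TP n y
      = (1 - x - y) * ∑ k ∈ range (n + 1), (k : R) * ((AA n k : R) * (16 ^ k * (tri k : R))) := by
  rw [TP_mul]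
  congr 1
  apply sum_congr rfl
  intro k hk
  rw [mem_range] at hk
  rw [EE_eval (by omega : k ≤ n) h2 h1 h0]

end ring

end Pool.Agent.CTS
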