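import Pool.Agent.CTS.Fin

/-!
# The explicit constants
-/

set_option autoImplicit false

namespace Pool.Agent.CTS

variable {R : Type*} [CommRing R] {g w : R}

/-- the constant of the first factor -/
def kK (g w : R) : R := 28 + 44 * g + 56 * w + 88 * w * g

/-- the constant of the second factor -/
def kL (g w : R) : R := -72 + 44 * g - 144 * w + 88 * w * g

theorem ell1 (hg : g ^ 2 = g + 1) (hw : w ^ 2 = -1 - w) :
    (1 + sS g w) ^ 2 = -3 - 5 * g - 11 * w - 18 * g * w := by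
  unfold sS
  linear_combination (1 - 4 * w + 4 * w ^ 2) * hg + (5 + 8 * g) * hw

theorem ell2 (hg : g ^ 2 = g + 1) (hw : w ^ 2 = -1 - w) :
    (1 + tT g w) ^ 2 = 21 - 13 * g + 29 * w - 18 * g * w := by
  unfold tT
  linear_combination (9 + 12 * w + 4 * w ^ 2) * hg + (13 - 8 * g) * hw

theorem tau1 (hg : g ^ 2 = g + 1) (hw : w ^ 2 = -1 - w) :
    sS g w * (1 - sS g w) = 4 + 8 * g + 8 * w + 12 * g * w := by
  unfold sS
  linear_combination (-1 + 4 * w - 4 * w ^ 2) * hg + (-5 - 8 * g) * hw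

theorem tau2 (hg : g ^ 2 = g + 1) (hw : w ^ 2 = -1 - w) :
    tT g w * (1 - tT g w) = -8 + 4 * g - 20 * w + 12 * g * w := by
  unfold tT
  linear_combination (-9 - 12 * w - 4 * w ^ 2) * hg + (-13 + 8 * g) * hw

theorem hK1 (hg : g ^ 2 = g + 1) (hw : w ^ 2 = -1 - w) :
    2 * kK g w = (1 + sS g w) ^ 2 * kL g w + 15 * (sS g w * (1 - sS g w)) := by
  rw [ell1 hg hw, tau1 hg hw]
  unfold kK kL
  linear_combination (220 + 1232 * w + 1584 * w ^ 2) * hg + (-40 * g) * hw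

theorem hK2 (hg : g ^ 2 = g + 1) (hw : w ^ 2 = -1 - w) :
    2 * kL g w = (1 + tT g w) ^ 2 * kK g w + 15 * (tT g w * (1 - tT g w)) := by
  rw [ell2 hg hw, tau2 hg hw]
  unfold kK kL
  linear_combination (572 + 1936 * w + 1584 * w ^ 2) * hg + (-40 + 40 * g) * hw

theorem hKd (hg : g ^ 2 = g + 1) (hw : w ^ 2 = -1 - w) :
    dD g w * (kK g w + kL g w) = -660 := by
  unfold kK kL dD
  linear_combination (176 + 704 * w + 704 * w ^ 2) * hg + (880) * hw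

theorem delta (hg : g ^ 2 = g + 1) (hw : w ^ 2 = -1 - w) :
    4 - (1 + sS g w) ^ 2 * (1 + tT g w) ^ 2 = 7 + g - w + 2 * g * w := by
  rw [ell1 hg hw, ell2 hg hw]
  linear_combination (-65 - 324 * w - 324 * w ^ 2) * hg + (-5) * hw

theorem hcA (hg : g ^ 2 = g + 1) (hw : w ^ 2 = -1 - w) :
    15 * (1 + sS g w) ^ 2 * (1 + tT g w) ^ 2 * sS g w ^ 2 + 60 * (1 + sS g w) ^ 2 * (tT g w * (1 - tT g w))
    + 30 * (1 + sS g w) ^ 2 * tT g w ^ 2 + 120 * (sS g w * (1 - sS g w)) = 480 + 840 * g + 2040 * w + 3120 * g * w := by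
  rw [ell1 hg hw, ell2 hg hw, tau1 hg hw, tau2 hg hw, sS_sq hg hw, tT_sq hg hw]
  linear_combination (-3945 - 6825 * g - 29835 * w - 47670 * g * w - 68160 * w ^ 2 - 102060 * g * w ^ 2 - 43740 * w ^ 3 - 68040 * g * w ^ 3) * hg + (195 + 435 * g - 675 * w - 1050 * g * w) * hw

theorem hcB (hg : g ^ 2 = g + 1) (hw : w ^ 2 = -1 - w) :
    60 * sS g w ^ 2 + 15 * (1 + tT g w) ^ 2 * sS g w ^ 2 + 60 * (tT g w * (1 - tT g w)) + 60 * tT g w ^ 2 = 240 - 780 * g - 180 * w - 1080 * g * w := by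
  rw [ell2 hg hw, tau2 hg hw, sS_sq hg hw, tT_sq hg hw]
  linear_combination (1365 + 4620 * w + 3780 * w ^ 2) * hg + (-135 + 120 * g) * hw

theorem hc (hg : g ^ 2 = g + 1) (hw : w ^ 2 = -1 - w) :
    (2 + (1 + tT g w) ^ 2) * (15 * (1 + sS g w) ^ 2 * (1 + tT g w) ^ 2 * sS g w ^ 2
    + 60 * (1 + sS g w) ^ 2 * (tT g w * (1 - tT g w)) + 30 * (1 + sS g w) ^ 2 * tT g w ^ 2
    + 120 * (sS g w * (1 - sS g w)))
    + (4 - (1 + sS g w) ^ 2 * (1 + tT g w) ^ 2) * (60 * sS g w ^ 2 + 15 * (1 + tT g w) ^ 2 * sS g w ^ 2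
    + 60 * (tT g w * (1 - tT g w)) + 60 * tT g w ^ 2) = 0 := by
  rw [hcA hg hw, hcB hg hw, delta hg hw, ell2 hg hw]
  linear_combination (-11700 - 58320 * w - 58320 * w ^ 2) * hg + (1020 - 3840 * g) * hw

theorem inv1 (hg : g ^ 2 = g + 1) (hw : w ^ 2 = -1 - w) :
    (1 + sS g w) * (2 - g - 3 * w + 2 * g * w) = 2 := by
  unfold sS
  linear_combination (-1 + 4 * w - 4 * w ^ 2) * hg + (-1) * hw

theorem inv2 (hg : g ^ 2 = g + 1) (hw : w ^ 2 = -1 - w) :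
    (1 + tT g w) * (2 + 3 * g + w + 2 * g * w) = 2 := by
  unfold tT
  linear_combination (-9 - 12 * w - 4 * w ^ 2) * hg + (-1) * hw

theorem invD (hg : g ^ 2 = g + 1) (hw : w ^ 2 = -1 - w) :
    (4 - (1 + sS g w) ^ 2 * (1 + tT g w) ^ 2) * (8 - g + w - 2 * g * w) = 60 := by
  rw [delta hg hw]
  linear_combination (-1 - 4 * w - 4 * w ^ 2) * hg + (-5) * hw

theorem inv60 (hg : g ^ 2 = g + 1) (hw : w ^ 2 = -1 - w) :
    (60 - 4 * dD g w) * (60 + 4 * dD g w) = 3840 := by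
  linear_combination (-16) * d_sq hg hw

theorem spA_s1 (hg : g ^ 2 = g + 1) (hw : w ^ 2 = -1 - w) :
    sS g w = g - w - 2 * g * w := by
  unfold sS
  linear_combination (0) * hg + (0) * hw

theorem spA_sq (hg : g ^ 2 = g + 1) (hw : w ^ 2 = -1 - w) :
    sS g w ^ 2 = -4 - 7 * g - 9 * w - 14 * g * w := by
  unfold sS
  linear_combination (1 - 4 * w + 4 * w ^ 2) * hg + (5 + 8 * g) * hw

theorem spA_B1 (hg : g ^ 2 = g + 1) (hw : w ^ 2 = -1 - w) :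
    15 * (1 + sS g w) ^ 4 * (1 + tT g w) ^ 2 * sS g w ^ 2 + 120 * (1 + sS g w) ^ 2 * sS g w = 12000 + 19440 * g + 6960 * w + 11280 * g * w := by
  have e : (1 + sS g w) ^ 4 = ((1 + sS g w) ^ 2) ^ 2 := by ring
  rw [e, ell1 hg hw, ell2 hg hw, spA_sq hg hw, spA_s1 hg hw]
  linear_combination (11010 + 39450 * g + 126855 * w + 425370 * g * w + 34125 * g ^ 2 + 510570 * w ^ 2 + 1644660 * g * w ^ 2 + 361200 * g ^ 2 * w + 846540 * w ^ 3 + 2675160 * g * w ^ 3 + 1368360 * g ^ 2 * w ^ 2 + 500040 * w ^ 4 + 1535760 * g * w ^ 4 + 2177280 * g ^ 2 * w ^ 3 + 1224720 * g ^ 2 * w ^ 4) * hg + (-12330 - 19965 * g + 8250 * w + 13350 * g * w + 26325 * w ^ 2 + 42600 * g * w ^ 2) * hw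

theorem spA_B2 (hg : g ^ 2 = g + 1) (hw : w ^ 2 = -1 - w) :
    (60 + 15 * (1 + tT g w) ^ 2) * (1 + sS g w) ^ 2 * sS g w ^ 2 + 240 * sS g w = -18240 - 29280 * g - 4800 * w - 7920 * g * w := by
  rw [ell1 hg hw, ell2 hg hw, spA_sq hg hw, spA_s1 hg hw]
  linear_combination (-1695 - 6825 * g - 16035 * w - 47670 * g * w - 47640 * w ^ 2 - 102060 * g * w ^ 2 - 43740 * w ^ 3 - 68040 * g * w ^ 3) * hg + (21045 + 34035 * g - 675 * w - 1050 * g * w) * hw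

theorem spA (hg : g ^ 2 = g + 1) (hw : w ^ 2 = -1 - w) :
    dD g w * ((2 + (1 + tT g w) ^ 2) * (15 * (1 + sS g w) ^ 4 * (1 + tT g w) ^ 2 * sS g w ^ 2
    + 120 * (1 + sS g w) ^ 2 * sS g w)
    + (4 - (1 + sS g w) ^ 2 * (1 + tT g w) ^ 2) * ((60 + 15 * (1 + tT g w) ^ 2) * (1 + sS g w) ^ 2 * sS g w ^ 2
    + 240 * sS g w)) = 120 * (1 + sS g w) * (1 + sS g w) * (4 - (1 + sS g w) ^ 2 * (1 + tT g w) ^ 2) * (44) := by
  rw [spA_B1 hg hw, spA_B2 hg hw, delta hg hw, spA_s1 hg hw, ell2 hg hw]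
  unfold dD
  linear_combination (-198960 - 569280 * g + 217440 * w - 2243520 * g * w + 746880 * w ^ 2 - 2668800 * g * w ^ 2 + 299520 * w ^ 3 - 917760 * g * w ^ 3) * hg + (-384240 - 618720 * g - 108480 * w - 181440 * g * w) * hw

theorem spB_s1 (hg : g ^ 2 = g + 1) (hw : w ^ 2 = -1 - w) :
    sS (1 - g) (-1 - w) = 4 - 3 * g + 3 * w - 2 * g * w := by
  unfold sS
  linear_combination (0) * hg + (0) * hw

theorem spB_sq (hg : g ^ 2 = g + 1) (hw : w ^ 2 = -1 - w) :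
    sS (1 - g) (-1 - w) ^ 2 = 12 - 7 * g + 23 * w - 14 * g * w := by
  unfold sS
  linear_combination (9 + 12 * w + 4 * w ^ 2) * hg + (13 - 8 * g) * hw

theorem spB_B1 (hg : g ^ 2 = g + 1) (hw : w ^ 2 = -1 - w) :
    15 * (1 + sS g w) ^ 4 * (1 + tT g w) ^ 2 * sS (1 - g) (-1 - w) ^ 2 + 120 * (1 + sS g w) ^ 2 * sS (1 - g) (-1 - w) = -240 - 480 * g + 960 * w + 1680 * g * w := by
  have e : (1 + sS g w) ^ 4 = ((1 + sS g w) ^ 2) ^ 2 := by ring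
  rw [e, ell1 hg hw, ell2 hg hw, spB_sq hg hw, spB_s1 hg hw]
  linear_combination (-32190 - 38550 * g - 353865 * w - 400230 * g * w + 34125 * g ^ 2 - 1365750 * w ^ 2 - 1483020 * g * w ^ 2 + 361200 * g ^ 2 * w - 2168820 * w ^ 3 - 2301480 * g * w ^ 3 + 1368360 * g ^ 2 * w ^ 2 - 1210680 * w ^ 4 - 1263600 * g * w ^ 4 + 2177280 * g ^ 2 * w ^ 3 + 1224720 * g ^ 2 * w ^ 4) * hg + (630 + 915 * g - 150 * w - 1050 * g * w - 75 * w ^ 2 - 600 * g * w ^ 2) * hw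

theorem spB_B2 (hg : g ^ 2 = g + 1) (hw : w ^ 2 = -1 - w) :
    (60 + 15 * (1 + tT g w) ^ 2) * (1 + sS g w) ^ 2 * sS (1 - g) (-1 - w) ^ 2 + 240 * sS (1 - g) (-1 - w) = -240 + 240 * g - 720 * w - 240 * g * w := by
  rw [ell1 hg hw, ell2 hg hw, spB_sq hg hw, spB_s1 hg hw]
  linear_combination (13905 - 6825 * g + 92925 * w - 47670 * g * w + 185640 * w ^ 2 - 102060 * g * w ^ 2 + 111780 * w ^ 3 - 68040 * g * w ^ 3) * hg + (1605 - 1485 * g + 1725 * w - 1050 * g * w) * hw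

theorem spB (hg : g ^ 2 = g + 1) (hw : w ^ 2 = -1 - w) :
    dD g w * ((2 + (1 + tT g w) ^ 2) * (15 * (1 + sS g w) ^ 4 * (1 + tT g w) ^ 2 * sS (1 - g) (-1 - w) ^ 2
    + 120 * (1 + sS g w) ^ 2 * sS (1 - g) (-1 - w))
    + (4 - (1 + sS g w) ^ 2 * (1 + tT g w) ^ 2) * ((60 + 15 * (1 + tT g w) ^ 2) * (1 + sS g w) ^ 2 * sS (1 - g) (-1 - w) ^ 2
    + 240 * sS (1 - g) (-1 - w))) = 120 * (1 + sS g w) * (1 + sS (1 - g) (-1 - w)) * (4 - (1 + sS g w) ^ 2 * (1 + tT g w) ^ 2) * (-4) := by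
  rw [spB_B1 hg hw, spB_B2 hg hw, delta hg hw, spB_s1 hg hw, ell2 hg hw]
  unfold dD sS
  linear_combination (-17040 + 11520 * g + 13920 * w - 960 * g * w + 67200 * w ^ 2 - 107520 * g * w ^ 2 + 57600 * w ^ 3 - 119040 * g * w ^ 3) * hg + (6960 - 4320 * g + 1920 * w - 8640 * g * w) * hw

theorem inA_s1 (hg : g ^ 2 = g + 1) (hw : w ^ 2 = -1 - w) :
    sS (1 - g) w = 1 - g - 3 * w + 2 * g * w := by
  unfold sS
  linear_combination (0) * hg + (0) * hw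

theorem inA_sq (hg : g ^ 2 = g + 1) (hw : w ^ 2 = -1 - w) :
    sS (1 - g) w ^ 2 = -11 + 7 * g - 23 * w + 14 * g * w := by
  unfold sS
  linear_combination (1 - 4 * w + 4 * w ^ 2) * hg + (13 - 8 * g) * hw

theorem inA_B1 (hg : g ^ 2 = g + 1) (hw : w ^ 2 = -1 - w) :
    15 * (dD g w - 7) * sS (1 - g) w ^ 2 + 240 * sS (1 - g) w = 240 - 240 * g + 1680 * w - 960 * g * w := by
  rw [inA_sq hg hw, inA_s1 hg hw]
  unfold dD
  linear_combination (210 + 840 * w + 840 * w ^ 2) * hg + (1530 - 960 * g) * hw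

theorem inA_B2 (hg : g ^ 2 = g + 1) (hw : w ^ 2 = -1 - w) :
    -15 * (1 + sS g w) ^ 2 * (dD g w - 7) * sS (1 - g) w ^ 2 + 480 * sS (1 - g) w ^ 2 = -5760 + 1920 * g - 11520 * w + 5760 * g * w := by
  rw [ell1 hg hw, inA_sq hg hw]
  unfold dD
  linear_combination (-4170 + 1050 * g - 24450 * w + 7980 * g * w - 36240 * w ^ 2 + 19320 * g * w ^ 2 - 8040 * w ^ 3 + 15120 * g * w ^ 3) * hg + (270 + 1410 * g - 450 * w - 300 * g * w) * hw

theorem inA_B0 (hg : g ^ 2 = g + 1) (hw : w ^ 2 = -1 - w) :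
    (1 + sS g w) ^ 2 * (92 - 4 * dD g w) + 64 = -384 - 736 * g - 1056 * w - 1728 * g * w := by
  rw [ell1 hg hw]
  unfold dD
  linear_combination (40 + 224 * w + 288 * w ^ 2) * hg + (200 + 320 * g) * hw

theorem inA (hg : g ^ 2 = g + 1) (hw : w ^ 2 = -1 - w) :
    -dD g w * (((1 + sS g w) ^ 2 * (92 - 4 * dD g w) + 64) * (15 * (dD g w - 7) * sS (1 - g) w ^ 2 + 240 * sS (1 - g) w)
    + (60 - 4 * dD g w) * (-15 * (1 + sS g w) ^ 2 * (dD g w - 7) * sS (1 - g) w ^ 2 + 480 * sS (1 - g) w ^ 2))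
    = 480 * (1 + sS g w) * (1 + sS (1 - g) w) * (60 - 4 * dD g w) * (44) := by
  rw [inA_B1 hg hw, inA_B2 hg hw, inA_B0 hg hw, inA_s1 hg hw]
  unfold dD sS
  linear_combination (1021440 - 491520 * g - 6021120 * w - 2396160 * g * w + 6236160 * w ^ 2 - 6635520 * g * w ^ 2 + 4177920 * w ^ 3 - 7618560 * g * w ^ 3) * hg + (-2142720 + 522240 * g - 61440 * w + 1044480 * g * w) * hw

theorem inB_s1 (hg : g ^ 2 = g + 1) (hw : w ^ 2 = -1 - w) :
    sS g (-1 - w) = 1 + 3 * g + w + 2 * g * w := by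
  unfold sS
  linear_combination (0) * hg + (0) * hw

theorem inB_sq (hg : g ^ 2 = g + 1) (hw : w ^ 2 = -1 - w) :
    sS g (-1 - w) ^ 2 = 5 + 7 * g + 9 * w + 14 * g * w := by
  unfold sS
  linear_combination (9 + 12 * w + 4 * w ^ 2) * hg + (5 + 8 * g) * hw

theorem inB_B1 (hg : g ^ 2 = g + 1) (hw : w ^ 2 = -1 - w) :
    15 * (dD g w - 7) * sS g (-1 - w) ^ 2 + 240 * sS g (-1 - w) = -720 - 720 * g - 720 * w - 960 * g * w := by
  rw [inB_sq hg hw, inB_s1 hg hw]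
  unfold dD
  linear_combination (210 + 840 * w + 840 * w ^ 2) * hg + (570 + 960 * g) * hw

theorem inB_B2 (hg : g ^ 2 = g + 1) (hw : w ^ 2 = -1 - w) :
    -15 * (1 + sS g w) ^ 2 * (dD g w - 7) * sS g (-1 - w) ^ 2 + 480 * sS g (-1 - w) ^ 2 = 28800 + 46080 * g - 5760 * w - 9600 * g * w := by
  rw [ell1 hg hw, inB_sq hg hw]
  unfold dD
  linear_combination (-1770 + 1050 * g - 6210 * w + 7980 * g * w + 7920 * w ^ 2 + 19320 * g * w ^ 2 + 26520 * w ^ 3 + 15120 * g * w ^ 3) * hg + (-29970 - 48510 * g + 23550 * w + 38100 * g * w) * hw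

theorem inB_B0 (hg : g ^ 2 = g + 1) (hw : w ^ 2 = -1 - w) :
    (1 + sS g w) ^ 2 * (92 - 4 * dD g w) + 64 = -384 - 736 * g - 1056 * w - 1728 * g * w := by
  rw [ell1 hg hw]
  unfold dD
  linear_combination (40 + 224 * w + 288 * w ^ 2) * hg + (200 + 320 * g) * hw

theorem inB (hg : g ^ 2 = g + 1) (hw : w ^ 2 = -1 - w) :
    -dD g w * (((1 + sS g w) ^ 2 * (92 - 4 * dD g w) + 64) * (15 * (dD g w - 7) * sS g (-1 - w) ^ 2 + 240 * sS g (-1 - w))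
    + (60 - 4 * dD g w) * (-15 * (1 + sS g w) ^ 2 * (dD g w - 7) * sS g (-1 - w) ^ 2 + 480 * sS g (-1 - w) ^ 2))
    = 480 * (1 + sS g w) * (1 + sS g (-1 - w)) * (60 - 4 * dD g w) * (-4) := by
  rw [inB_B1 hg hw, inB_B2 hg hw, inB_B0 hg hw, inB_s1 hg hw]
  unfold dD sS
  linear_combination (-6965760 - 368640 * g - 20766720 * w - 3256320 * g * w - 18094080 * w ^ 2 - 8601600 * g * w ^ 2 - 12533760 * w ^ 3 - 7127040 * g * w ^ 3) * hg + (-4600320 - 7464960 * g - 11120640 * w - 18001920 * g * w) * hw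

end Pool.Agent.CTS
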