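import Pool.Agent.CTS.Core

/-!
# Eliminating the powers
-/

set_option autoImplicit false

namespace Pool.Agent.CTS

variable {R : Type*} [CommRing R]

theorem fin_inert {q G G' s s1 t1 d P D x y : R}
    (A : 8 * P = 2 * G * G' * (4 * P + 15 * q * x) + 15 * G ^ 2 * (1 + s) ^ 2 * q * y)
    (B : 60 * G * (1 + s) ^ 2 * D = -d * ((1 + s) ^ 2 * (8 * P - G * G' * (4 * P + 15 * q * x))
        + 8 * P + 60 * q * x))
    (hP : ∃ r, P = q * r) (hD : ∃ r, D = q * r)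
    (cG : q * (G * (1 + s)) = q * (1 + s1)) (cx : q * x = q * s1 ^ 2) (cy : q * y = q * t1 ^ 2)
    (cGG : q * (8 * (G * G')) = q * (d - 7)) (h4 : 4 * s1 = t1 ^ 2 * (1 + s1) ^ 2) :
    480 * (1 + s) * (1 + s1) * (60 - 4 * d) * D
      = -d * q * (((1 + s) ^ 2 * (92 - 4 * d) + 64) * (15 * (d - 7) * s1 ^ 2 + 240 * s1)
        + (60 - 4 * d) * (-15 * (1 + s) ^ 2 * (d - 7) * s1 ^ 2 + 480 * s1 ^ 2)) := by
  obtain ⟨P1, hP⟩ := hP
  obtain ⟨D1, hD⟩ := hD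
  have A1 : (60 - 4 * d) * P = q * (15 * (d - 7) * s1 ^ 2 + 240 * s1) := by
    have A2 : 4 * (2 * G * G' * (4 * P + 15 * q * x)) = (d - 7) * (4 * P + 15 * q * x) := by
      rw [hP]
      linear_combination (4 * P1 + 15 * x) * cGG
    have A3 : G ^ 2 * (1 + s) ^ 2 * q * y = 4 * q * s1 := by
      linear_combination (y * (G * (1 + s) + (1 + s1))) * cG + (1 + s1) ^ 2 * cy - q * h4
    linear_combination 4 * A + A2 + 60 * A3 + (15 * (d - 7)) * cx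
  have B1 : 480 * (1 + s) * (1 + s1) * D = -d * ((1 + s) ^ 2 * ((92 - 4 * d) * P
      - 15 * (d - 7) * q * s1 ^ 2) + 64 * P + 480 * q * s1 ^ 2) := by
    have B2 : 8 * (G * G' * (4 * P + 15 * q * x)) = (d - 7) * (4 * P + 15 * q * x) := by
      rw [hP]
      linear_combination (4 * P1 + 15 * x) * cGG
    have B3 : G * (1 + s) * D = (1 + s1) * D := by
      rw [hD]
      linear_combination D1 * cG
    linear_combination 8 * B - (480 * (1 + s)) * B3 + (d * (1 + s) ^ 2) * B2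
      + (15 * d * (1 + s) ^ 2 * (d - 7) - 480 * d) * cx
  linear_combination (60 - 4 * d) * B1 - (d * ((1 + s) ^ 2 * (92 - 4 * d) + 64)) * A1

theorem fin_split {q G s s1 t1 d h L' T T' X Y D x y : R}
    (A : 120 * G * (4 - (1 + s) ^ 2 * L') * D = -d * q
      * ((2 + L') * (15 * (1 + s) ^ 2 * L' * (X * h ^ 2 - x)
        + 60 * (1 + s) ^ 2 * T' * h ^ 2 + 30 * (1 + s) ^ 2 * (Y * h ^ 2 - G ^ 2 * y)
        + 120 * T * h ^ 2)
      + (4 - (1 + s) ^ 2 * L') * (60 * (X * h ^ 2 - x) + 15 * L' * (X * h ^ 2 - x)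
        + 60 * T' * h ^ 2 + 60 * (Y * h ^ 2 - G ^ 2 * y))))
    (hD : ∃ r, D = q * r)
    (hc : (2 + L') * (15 * (1 + s) ^ 2 * L' * X + 60 * (1 + s) ^ 2 * T' + 30 * (1 + s) ^ 2 * Y
        + 120 * T) + (4 - (1 + s) ^ 2 * L') * (60 * X + 15 * L' * X + 60 * T' + 60 * Y) = 0)
    (cG : q * (G * (1 + s)) = q * (1 + s1)) (cx : q * x = q * s1 ^ 2) (cy : q * y = q * t1 ^ 2)
    (h4 : 4 * s1 = t1 ^ 2 * (1 + s1) ^ 2) :
    120 * (1 + s) * (1 + s1) * (4 - (1 + s) ^ 2 * L') * D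
      = d * q * ((2 + L') * (15 * (1 + s) ^ 4 * L' * s1 ^ 2 + 120 * (1 + s) ^ 2 * s1)
        + (4 - (1 + s) ^ 2 * L') * ((60 + 15 * L') * (1 + s) ^ 2 * s1 ^ 2 + 240 * s1)) := by
  obtain ⟨D1, hD⟩ := hD
  have B3 : G * (1 + s) * D = (1 + s1) * D := by
    rw [hD]
    linear_combination D1 * cG
  have A3 : G ^ 2 * (1 + s) ^ 2 * q * y = 4 * q * s1 := by
    linear_combination (y * (G * (1 + s) + (1 + s1))) * cG + (1 + s1) ^ 2 * cy - q * h4
  linear_combination (1 + s) ^ 2 * A - (120 * (1 + s) * (4 - (1 + s) ^ 2 * L')) * B3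
    - (d * q * h ^ 2 * (1 + s) ^ 2) * hc
    + (d * ((2 + L') * (30 * (1 + s) ^ 2) + 60 * (4 - (1 + s) ^ 2 * L'))) * A3
    + (d * ((2 + L') * 15 * (1 + s) ^ 4 * L' + (4 - (1 + s) ^ 2 * L') * (60 + 15 * L')
      * (1 + s) ^ 2)) * cx

end Pool.Agent.CTS
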