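import Pool.Agent.CTS.Wron

/-!
# `p`-th powers modulo `p`
-/

set_option autoImplicit false

namespace Pool.Agent.CTS

variable {R : Type*} [CommRing R] {p n : ℕ}

/-- `x` equals `y` modulo `p` -/
def Cg (p : ℕ) (x y : R) : Prop := ∃ r : R, x = y + (p : R) * r

theorem Cg.refl (x : R) : Cg p x x := ⟨0, by ring⟩

theorem Cg.of_eq {x y : R} (h : x = y) : Cg p x y := ⟨0, by rw [h]; ring⟩

theorem Cg.symm {x y : R} (h : Cg p x y) : Cg p y x := by
  obtain ⟨r, h⟩ := h
  exact ⟨-r, by rw [h]; ring⟩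

theorem Cg.trans {x y z : R} (h : Cg p x y) (h' : Cg p y z) : Cg p x z := by
  obtain ⟨r, h⟩ := h
  obtain ⟨r', h'⟩ := h'
  exact ⟨r + r', by rw [h, h']; ring⟩

theorem Cg.add {x y x' y' : R} (h : Cg p x y) (h' : Cg p x' y') : Cg p (x + x') (y + y') := by
  obtain ⟨r, h⟩ := h
  obtain ⟨r', h'⟩ := h'
  exact ⟨r + r', by rw [h, h']; ring⟩

theorem Cg.sub {x y x' y' : R} (h : Cg p x y) (h' : Cg p x' y') : Cg p (x - x') (y - y') := by
  obtain ⟨r, h⟩ := h
  obtain ⟨r', h'⟩ := h'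
  exact ⟨r - r', by rw [h, h']; ring⟩

theorem Cg.mul {x y x' y' : R} (h : Cg p x y) (h' : Cg p x' y') : Cg p (x * x') (y * y') := by
  obtain ⟨r, h⟩ := h
  obtain ⟨r', h'⟩ := h'
  exact ⟨r * y' + r' * y + (p : R) * r * r', by rw [h, h']; ring⟩

theorem Cg.mul_left {x y : R} (z : R) (h : Cg p x y) : Cg p (z * x) (z * y) :=
  (Cg.refl z).mul h

theorem Cg.pow {x y : R} (h : Cg p x y) (m : ℕ) : Cg p (x ^ m) (y ^ m) := by
  induction m with
  | zero => simpa using Cg.refl (p := p) (1 : R)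
  | succ m ih =>
    rw [pow_succ, pow_succ]
    exact ih.mul h

theorem Cg.int {a b : ℤ} (h : (p : ℤ) ∣ a - b) : Cg p (a : R) (b : R) := by
  obtain ⟨r, h⟩ := h
  refine ⟨(r : R), ?_⟩
  have := congrArg (Int.cast : ℤ → R) h
  push_cast at this
  rw [← this]
  ring

/-- cancel a unit -/
theorem Cg.cancel {u x y : R} (hu : IsUnit u) (h : Cg p (u * x) (u * y)) : Cg p x y := by
  obtain ⟨v, hv⟩ := hu.exists_left_inv
  have := h.mul_left v
  rwa [← mul_assoc, ← mul_assoc, hv, one_mul, one_mul] at this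

/-- `x ^ p = y` modulo `p` -/
def Fr (p : ℕ) (x y : R) : Prop := Cg p (x ^ p) y

theorem Fr.mul {x y x' y' : R} (h : Fr p x y) (h' : Fr p x' y') : Fr p (x * x') (y * y') := by
  unfold Fr at *
  rw [mul_pow]
  exact Cg.mul h h'

theorem Fr.add (hp : p.Prime) {x y x' y' : R} (h : Fr p x y) (h' : Fr p x' y') :
    Fr p (x + x') (y + y') := by
  obtain ⟨r, hr⟩ := exists_add_pow_prime_eq hp x x'
  have h1 : Fr p (x + x') (x ^ p + x' ^ p) := ⟨x * x' * r, by rw [hr]; ring⟩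
  exact Cg.trans h1 (Cg.add h h')

theorem Fr.int (hp : p.Prime) (a : ℤ) : Fr p (a : R) (a : R) := by
  have : Fact p.Prime := ⟨hp⟩
  have h : (p : ℤ) ∣ a ^ p - a := by
    rw [← ZMod.intCast_zmod_eq_zero_iff_dvd]
    push_cast
    rw [ZMod.pow_card, sub_self]
  have := Cg.int (R := R) h
  push_cast at this
  exact this

theorem Fr.one : Fr p (1 : R) 1 := by
  unfold Fr
  rw [one_pow]
  exact Cg.refl 1

theorem Fr.neg (hp : p.Prime) {x y : R} (h : Fr p x y) : Fr p (-x) (-y) := by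
  have h1 := (Fr.int (R := R) hp (-1)).mul h
  push_cast at h1
  rwa [neg_one_mul, neg_one_mul] at h1

theorem Fr.sub (hp : p.Prime) {x y x' y' : R} (h : Fr p x y) (h' : Fr p x' y') :
    Fr p (x - x') (y - y') := by
  rw [sub_eq_add_neg, sub_eq_add_neg]
  exact h.add hp (h'.neg hp)

/-- the third root of unity, first case -/
theorem Fr_w1 {w : R} (hw : w ^ 2 = -1 - w) (h3 : p % 3 = 1) : Fr p w w := by
  have h : w ^ 3 = 1 := by linear_combination (w - 1) * hw
  refine Cg.of_eq ?_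
  have e : p = 3 * (p / 3) + 1 := by omega
  rw [e, pow_add, pow_mul, h, one_pow, one_mul, pow_one]

theorem Fr_w2 {w : R} (hw : w ^ 2 = -1 - w) (h3 : p % 3 = 2) : Fr p w (-1 - w) := by
  have h : w ^ 3 = 1 := by linear_combination (w - 1) * hw
  refine Cg.of_eq ?_
  have e : p = 3 * (p / 3) + 2 := by omega
  rw [e, pow_add, pow_mul, h, one_pow, one_mul, hw]

theorem sq5 : IsSquare ((1 : ℕ) : ZMod 5) ∧ IsSquare ((4 : ℕ) : ZMod 5)
    ∧ ¬ IsSquare ((2 : ℕ) : ZMod 5) ∧ ¬ IsSquare ((3 : ℕ) : ZMod 5) := by decide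

theorem five_pow (hp : p.Prime) (hn : p = 2 * n + 1) (h5 : p ≠ 5) :
    ((p % 5 = 1 ∨ p % 5 = 4) → (p : ℤ) ∣ 5 ^ n - 1) ∧
    ((p % 5 = 2 ∨ p % 5 = 3) → (p : ℤ) ∣ 5 ^ n - (-1)) := by
  have : Fact p.Prime := ⟨hp⟩
  have : Fact (Nat.Prime 5) := ⟨by norm_num⟩
  have hne : ((5 : ℕ) : ZMod p) ≠ 0 := by
    intro h
    rw [ZMod.natCast_eq_zero_iff] at h
    exact h5 ((Nat.prime_dvd_prime_iff_eq hp (by norm_num)).1 h)
  have hiff := ZMod.exists_sq_eq_prime_iff_of_mod_four_eq_one (p := 5) (q := p) (by norm_num)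
    (by omega)
  have heu := ZMod.euler_criterion p hne
  have hdiv : p / 2 = n := by omega
  rw [hdiv] at heu
  have hpow := ZMod.pow_div_two_eq_neg_one_or_one p hne
  rw [hdiv] at hpow
  have hcast : (p : ZMod 5) = ((p % 5 : ℕ) : ZMod 5) := by
    rw [ZMod.natCast_mod]
  constructor
  · intro h
    rw [← ZMod.intCast_zmod_eq_zero_iff_dvd]
    push_cast
    rw [sub_eq_zero]
    have hs : IsSquare (p : ZMod 5) := by
      rw [hcast]
      rcases h with h | h <;> rw [h]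
      · exact sq5.1
      · exact sq5.2.1
    have := heu.1 (hiff.1 hs)
    push_cast at this
    exact this
  · intro h
    rw [← ZMod.intCast_zmod_eq_zero_iff_dvd]
    push_cast
    rw [sub_neg_eq_add, ← sub_neg_eq_add, sub_eq_zero]
    have hs : ¬ IsSquare (p : ZMod 5) := by
      rw [hcast]
      rcases h with h | h <;> rw [h]
      · exact sq5.2.2.1
      · exact sq5.2.2.2
    rcases hpow with h1 | h1
    · exact absurd (hiff.2 (heu.2 h1)) hs
    · push_cast at h1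
      exact h1

theorem Fr_g {g : R} (hg : g ^ 2 = g + 1) (h2 : IsUnit (2 : R)) (hp : p.Prime)
    (hn : p = 2 * n + 1) {ε : ℤ} (he : (p : ℤ) ∣ 5 ^ n - ε) :
    ∃ y : R, Fr p g y ∧ 2 * y = 1 + ε * (2 * g - 1) := by
  obtain ⟨e, he2⟩ := h2.exists_left_inv
  have h5 : (2 * g - 1) ^ 2 = 5 := by linear_combination 4 * hg
  have h1 : Fr p (2 * g - 1) (ε * (2 * g - 1)) := by
    have h : (2 * g - 1) ^ p = 5 ^ n * (2 * g - 1) := by
      rw [hn, pow_succ, pow_mul, h5]
    unfold Fr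
    rw [h]
    have := Cg.int (R := R) he
    push_cast at this
    exact this.mul (Cg.refl _)
  have h3 : Fr p (2 * g) (1 + ε * (2 * g - 1)) := by
    have := Fr.one.add hp h1
    have e1 : (1 : R) + (2 * g - 1) = 2 * g := by ring
    rwa [e1] at this
  refine ⟨e * (1 + ε * (2 * g - 1)), ?_, ?_⟩
  · have h4 := (Fr.int (R := R) hp 2)
    have h5 : Cg p ((2 : R) * g ^ p) (1 + ε * (2 * g - 1)) := by
      have h6 : Cg p ((2 : R) ^ p * g ^ p) (2 * g ^ p) := by
        have := h4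
        push_cast at this
        exact Cg.mul this (Cg.refl _)
      have h7 : Cg p ((2 : R) ^ p * g ^ p) (1 + ε * (2 * g - 1)) := by
        have := h3
        unfold Fr at this
        rwa [mul_pow] at this
      exact h6.symm.trans h7
    have h8 := h5.mul_left e
    rw [← mul_assoc, he2, one_mul] at h8
    exact h8
  · rw [← mul_assoc, mul_comm 2 e, he2, one_mul]

theorem Fr_g1 {g : R} (hg : g ^ 2 = g + 1) (h2 : IsUnit (2 : R)) (hp : p.Prime)
    (hn : p = 2 * n + 1) (h5 : p % 5 = 1 ∨ p % 5 = 4) : Fr p g g := by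
  have h := (five_pow hp hn (by omega)).1 h5
  obtain ⟨y, hy, hy2⟩ := Fr_g hg h2 hp hn h
  have : y = g := by
    apply h2.mul_left_cancel
    rw [hy2]
    push_cast
    ring
  rwa [this] at hy

theorem Fr_g2 {g : R} (hg : g ^ 2 = g + 1) (h2 : IsUnit (2 : R)) (hp : p.Prime)
    (hn : p = 2 * n + 1) (h5 : p % 5 = 2 ∨ p % 5 = 3) : Fr p g (1 - g) := by
  have h := (five_pow hp hn (by omega)).2 h5
  obtain ⟨y, hy, hy2⟩ := Fr_g hg h2 hp hn h
  have : y = 1 - g := by
    apply h2.mul_left_cancel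
    rw [hy2]
    push_cast
    ring
  rwa [this] at hy

end Pool.Agent.CTS
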