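import Pool.Agent.CTS.Rel

/-!
# The quadratic transformation modulo `p^2`
-/

set_option autoImplicit false

namespace Pool.Agent.CTS

open Finset

variable {R : Type*} [CommRing R] {p n : ℕ}

theorem cast_zmod (h0 : (p : R) ^ 2 = 0) {a b : ℤ} (h : (a : ZMod (p ^ 2)) = b) :
    (a : R) = b := by
  have h1 : ((a - b : ℤ) : ZMod (p ^ 2)) = 0 := by
    push_cast
    rw [h, sub_self]
  rw [ZMod.intCast_zmod_eq_zero_iff_dvd] at h1
  obtain ⟨r, hr⟩ := h1
  have h2 := congrArg (Int.cast : ℤ → R) hr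
  push_cast at h2
  rw [h0, zero_mul, sub_eq_zero] at h2
  exact h2

theorem mid_R (hp : p.Prime) (hn : p = 2 * n + 1) (h0 : (p : R) ^ 2 = 0) {k : ℕ} (hk : k ≤ n) :
    2 * (-1) ^ k * ((n.choose k : ℕ) : R) * ((k.centralBinom : ℕ) : R)
      = 4 ^ k * ((-1) ^ k * (AA n k : R) + ((n.choose k : ℕ) : R) ^ 2) := by
  have h := cong_mid hp hn hk
  have h1 : ((2 * (-1) ^ k * ((n.choose k : ℕ) : ℤ) * ((k.centralBinom : ℕ) : ℤ) : ℤ) : ZMod (p ^ 2))
      = ((4 ^ k * ((-1) ^ k * (AA n k : ℤ) + ((n.choose k : ℕ) : ℤ) ^ 2) : ℤ) : ZMod (p ^ 2)) := by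
    push_cast
    exact h
  have h2 := cast_zmod h0 h1
  push_cast at h2
  exact h2

theorem term_R (hp : p.Prime) (hn : p = 2 * n + 1) (h0 : (p : R) ^ 2 = 0) {s Y : R}
    (h : 4 * s = Y * (1 + s) ^ 2) {k : ℕ} (hk : k ≤ n) :
    2 * (((n.choose k : ℕ) : R) * ((k.centralBinom : ℕ) : R)
          * ((-s) ^ k * (1 + s) ^ (2 * (n - k))))
      = (1 + s) ^ (2 * n) * ((-1) ^ k * (AA n k : R) * Y ^ k
          + ((n.choose k : ℕ) : R) ^ 2 * Y ^ k) := by
  have h1 := mid_R hp hn h0 hk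
  have h2 : (4 : R) ^ k * s ^ k = Y ^ k * (1 + s) ^ (2 * k) := by
    rw [← mul_pow, h, mul_pow, ← pow_mul]
  have h3 : (1 + s) ^ (2 * n) = (1 + s) ^ (2 * k) * (1 + s) ^ (2 * (n - k)) := by
    rw [← pow_add]
    congr 1
    omega
  have h4 : (-s) ^ k = (-1) ^ k * s ^ k := by
    rw [← mul_pow, neg_one_mul]
  rw [h3, h4]
  linear_combination (s ^ k * (1 + s) ^ (2 * (n - k))) * h1
    + ((1 + s) ^ (2 * (n - k)) * ((-1) ^ k * (AA n k : R) + ((n.choose k : ℕ) : R) ^ 2)) * h2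

theorem land_cong (hp : p.Prime) (hn : p = 2 * n + 1) (h0 : (p : R) ^ 2 = 0) {s Y : R}
    (h : 4 * s = Y * (1 + s) ^ 2) :
    2 * HH n (s ^ 2) = (1 + s) ^ (2 * n) * (PP n Y + HH n Y) := by
  rw [landen, mul_sum]
  unfold PP HH
  rw [← sum_add_distrib, mul_sum]
  apply sum_congr rfl
  intro k hk
  rw [mem_range] at hk
  exact term_R hp hn h0 h (by omega)

theorem land_deriv_cong (hp : p.Prime) (hn : p = 2 * n + 1) (h0 : (p : R) ^ 2 = 0) {s Y : R}
    (h : 4 * s = Y * (1 + s) ^ 2) :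
    4 * (1 + s) * TH n (s ^ 2) = (1 + s) ^ (2 * n)
      * ((1 - s) * (TP n Y + TH n Y) + ((p : R) - 1) * s * (PP n Y + HH n Y)) := by
  have hpn : (p : R) - 1 = 2 * (n : R) := by
    have := congrArg (Nat.cast : ℕ → R) hn
    push_cast at this
    rw [this]
    ring
  have e : 4 * (1 + s) * TH n (s ^ 2) = 2 * (2 * (1 + s) * TH n (s ^ 2)) := by ring
  rw [e, landen_deriv, mul_sum, hpn]
  have e2 : (1 + s) ^ (2 * n)
      * ((1 - s) * (TP n Y + TH n Y) + 2 * (n : R) * s * (PP n Y + HH n Y))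
      = ∑ k ∈ range (n + 1), ((1 + s) ^ (2 * n) * ((-1) ^ k * (AA n k : R) * Y ^ k
          + ((n.choose k : ℕ) : R) ^ 2 * Y ^ k)) * ((k : R) * (1 - s) + 2 * (n : R) * s) := by
    unfold PP HH TP TH
    rw [← sum_add_distrib, ← sum_add_distrib, mul_sum, mul_sum, ← sum_add_distrib, mul_sum]
    apply sum_congr rfl
    intro k _
    ring
  rw [e2]
  apply sum_congr rfl
  intro k hk
  rw [mem_range] at hk
  have := term_R hp hn h0 h (by omega : k ≤ n)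
  rw [← this]
  ring

end Pool.Agent.CTS
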