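import Mathlib

/-!
# An exact form of Landen's transformation

`sum_k C(n,k)^2 t^(2k) = sum_k C(n,k) C(2k,k) (-t)^k (1+t)^(2(n-k))`, and its derivative.
-/

set_option autoImplicit false

namespace Pool.Agent.CTS

open Finset Polynomial

section ring

variable {R : Type*} [CommRing R]

/-- `sum_k C(n,k)^2 y^k` -/
def HH (n : ℕ) (y : R) : R := ∑ k ∈ range (n + 1), ((n.choose k : ℕ) : R) ^ 2 * y ^ k

/-- `y d/dy` of `HH` -/
def TH (n : ℕ) (y : R) : R :=
  ∑ k ∈ range (n + 1), (k : R) * (((n.choose k : ℕ) : R) ^ 2 * y ^ k)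

theorem landen_lhs (n : ℕ) (t : R) :
    (((X - C t) * (1 - C t * X)) ^ n : R[X]).coeff n = HH n (t ^ 2) := by
  have h1 : (1 - C t * X : R[X]) ^ n
      = ∑ l ∈ range (n + 1), C ((-t) ^ l * ((n.choose l : ℕ) : R)) * X ^ l := by
    have h0 : (1 - C t * X : R[X]) = (C (-t) * X) + 1 := by
      rw [C_neg]
      ring
    rw [h0, add_pow]
    apply sum_congr rfl
    intro l _
    rw [one_pow, mul_one, mul_pow, map_mul, map_pow, map_natCast]
    ring
  have h2 : ∀ j : ℕ, ((X - C t : R[X]) ^ n).coeff j = (-t) ^ (n - j) * ((n.choose j : ℕ) : R) := by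
    intro j
    have : (X - C t : R[X]) = X + C (-t) := by
      rw [C_neg]
      ring
    rw [this, coeff_X_add_C_pow]
  rw [mul_pow, h1, mul_sum, finsetSum_coeff]
  unfold HH
  apply sum_congr rfl
  intro l hl
  rw [mem_range] at hl
  have h3 : (X - C t : R[X]) ^ n * (C ((-t) ^ l * ((n.choose l : ℕ) : R)) * X ^ l)
      = C ((-t) ^ l * ((n.choose l : ℕ) : R)) * ((X - C t) ^ n * X ^ l) := by ring
  rw [h3, coeff_C_mul, coeff_mul_X_pow', if_pos (by omega : l ≤ n), h2]
  have h4 : n - (n - l) = l := by omega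
  rw [h4, Nat.choose_symm (by omega : l ≤ n)]
  have h5 : (t ^ 2) ^ l = (-t) ^ l * (-t) ^ l := by
    rw [← mul_pow]
    congr 1
    ring
  rw [h5]
  ring

theorem landen_rhs (n : ℕ) (t : R) :
    ((C ((1 + t) ^ 2) * X + C (-t) * (1 + X) ^ 2) ^ n : R[X]).coeff n
      = ∑ k ∈ range (n + 1), ((n.choose k : ℕ) : R) * ((k.centralBinom : ℕ) : R)
          * ((-t) ^ k * (1 + t) ^ (2 * (n - k))) := by
  rw [add_comm, add_pow, finsetSum_coeff]
  apply sum_congr rfl
  intro k hk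
  rw [mem_range] at hk
  have h3 : (C (-t) * (1 + X) ^ 2 : R[X]) ^ k * (C ((1 + t) ^ 2) * X) ^ (n - k)
      * ((n.choose k : ℕ) : R[X])
      = C ((-t) ^ k * (1 + t) ^ (2 * (n - k)) * ((n.choose k : ℕ) : R))
        * ((1 + X) ^ (2 * k) * X ^ (n - k)) := by
    rw [mul_pow, mul_pow, pow_mul (1 + X), pow_mul (1 + t)]
    simp only [map_mul, map_pow, map_neg, map_one, map_add, map_natCast]
    ring
  rw [h3, coeff_C_mul, coeff_mul_X_pow', if_pos (by omega : n - k ≤ n)]
  have h4 : n - (n - k) = k := by omega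
  rw [h4, coeff_one_add_X_pow, Nat.centralBinom_eq_two_mul_choose]
  ring

theorem landen (n : ℕ) (t : R) :
    HH n (t ^ 2) = ∑ k ∈ range (n + 1), ((n.choose k : ℕ) : R) * ((k.centralBinom : ℕ) : R)
          * ((-t) ^ k * (1 + t) ^ (2 * (n - k))) := by
  rw [← landen_lhs, ← landen_rhs]
  congr 2
  simp only [map_pow, map_neg, map_one, map_add]
  ring

end ring

theorem X_deriv_pow (m : ℕ) : (X : ℤ[X]) * derivative (X ^ m) = (m : ℤ[X]) * X ^ m := by
  rcases m with _ | m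
  · simp
  · rw [derivative_X_pow]
    simp only [Nat.add_sub_cancel, map_natCast]
    ring

theorem negX_deriv_pow (m : ℕ) :
    (X : ℤ[X]) * derivative ((-X) ^ m) = (m : ℤ[X]) * (-X) ^ m := by
  rw [neg_pow]
  have h : ((-1 : ℤ[X]) ^ m) = C ((-1) ^ m) := by
    simp
  rw [h, derivative_C_mul]
  linear_combination (C ((-1) ^ m) : ℤ[X]) * X_deriv_pow m

theorem oneX_deriv_pow (m : ℕ) :
    (1 + X : ℤ[X]) * derivative ((1 + X) ^ m) = (m : ℤ[X]) * (1 + X) ^ m := by
  rcases m with _ | m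
  · simp
  · rw [derivative_pow]
    simp only [Nat.add_sub_cancel, map_natCast, derivative_add, derivative_one, derivative_X]
    ring

theorem landen_deriv_poly (n : ℕ) :
    2 * (1 + X : ℤ[X]) * TH n (X ^ 2)
      = ∑ k ∈ range (n + 1), ((n.choose k : ℕ) : ℤ[X]) * ((k.centralBinom : ℕ) : ℤ[X])
          * ((-X) ^ k * (1 + X) ^ (2 * (n - k))) * ((k : ℤ[X]) * (1 - X) + 2 * (n : ℤ[X]) * X) := by
  have h := congrArg (fun q => X * (1 + X) * derivative q) (landen (R := ℤ[X]) n X)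
  have e1 : X * (1 + X) * derivative (HH n (X ^ 2 : ℤ[X])) = 2 * (1 + X) * TH n (X ^ 2) := by
    unfold HH TH
    rw [derivative_sum, mul_sum, mul_sum]
    apply sum_congr rfl
    intro k _
    have h1 : ((((n.choose k : ℕ) : ℤ[X])) ^ 2 * (X ^ 2) ^ k) = C (((n.choose k : ℕ) : ℤ) ^ 2)
        * X ^ (2 * k) := by
      rw [← pow_mul]
      simp
    rw [h1, derivative_C_mul]
    have h2 := X_deriv_pow (2 * k)
    push_cast at h2
    linear_combination ((1 + X) * C (((n.choose k : ℕ) : ℤ) ^ 2)) * h2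
  have e2 : X * (1 + X) * derivative (∑ k ∈ range (n + 1), ((n.choose k : ℕ) : ℤ[X])
        * ((k.centralBinom : ℕ) : ℤ[X]) * ((-X) ^ k * (1 + X) ^ (2 * (n - k))))
      = ∑ k ∈ range (n + 1), ((n.choose k : ℕ) : ℤ[X]) * ((k.centralBinom : ℕ) : ℤ[X])
          * ((-X) ^ k * (1 + X) ^ (2 * (n - k))) * ((k : ℤ[X]) * (1 - X) + 2 * (n : ℤ[X]) * X) := by
    rw [derivative_sum, mul_sum]
    apply sum_congr rfl
    intro k hk
    rw [mem_range] at hk
    have h1 : ((n.choose k : ℕ) : ℤ[X]) * ((k.centralBinom : ℕ) : ℤ[X])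
        = C (((n.choose k : ℕ) : ℤ) * ((k.centralBinom : ℕ) : ℤ)) := by
      simp
    rw [h1, derivative_C_mul, derivative_mul]
    have h2 := negX_deriv_pow k
    have h3 := oneX_deriv_pow (2 * (n - k))
    have h4 : ((2 * (n - k) : ℕ) : ℤ[X]) = 2 * (n : ℤ[X]) - 2 * (k : ℤ[X]) := by
      push_cast [Nat.cast_sub (by omega : k ≤ n)]
      ring
    rw [h4] at h3
    linear_combination (C (((n.choose k : ℕ) : ℤ) * ((k.centralBinom : ℕ) : ℤ)) * (1 + X)
        * (1 + X) ^ (2 * (n - k))) * h2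
      + (C (((n.choose k : ℕ) : ℤ) * ((k.centralBinom : ℕ) : ℤ)) * X * (-X) ^ k) * h3
  rw [e1, e2] at h
  exact h

section ring

variable {R : Type*} [CommRing R]

theorem landen_deriv (n : ℕ) (t : R) :
    2 * (1 + t) * TH n (t ^ 2)
      = ∑ k ∈ range (n + 1), ((n.choose k : ℕ) : R) * ((k.centralBinom : ℕ) : R)
          * ((-t) ^ k * (1 + t) ^ (2 * (n - k))) * ((k : R) * (1 - t) + 2 * (n : R) * t) := by
  have h := congrArg (fun q => aeval t q) (landen_deriv_poly n)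
  simp only [TH, map_mul, map_add, map_sum, map_pow, map_neg, map_sub, map_one, map_natCast,
    map_ofNat, aeval_X] at h
  unfold TH
  exact h

end ring

end Pool.Agent.CTS
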