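import Pool.Agent.CTS.Bmod
import Mathlib.Data.Nat.Choose.Lucas
import Mathlib.Data.Nat.Choose.Factorization

/-!
# Lucas congruences, partial sums modulo `p`, and positivity
-/

set_option autoImplicit false

namespace Pool.Agent.CTS

open Finset Polynomial

theorem tri_lucas {p : ℕ} (hp : p.Prime) (k j : ℕ) (hj : j < p) :
    ((tri (p * k + j) : ℤ) : ZMod p) = (tri k : ZMod p) * (tri j : ZMod p) := by
  have : Fact p.Prime := ⟨hp⟩
  rw [← tri_coeff, ← tri_coeff, ← tri_coeff]
  set f : (ZMod p)[X] := 1 + X + X ^ 2 with hf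
  have h1 : f ^ (p * k + j) = expand (ZMod p) p (f ^ k) * f ^ j := by
    rw [ZMod.expand_card, ← pow_mul, pow_add, Nat.mul_comm k p]
  have hdeg : (f ^ j).natDegree ≤ 2 * j := by
    have h2 : f.natDegree ≤ 2 := by
      rw [hf]
      compute_degree
    calc (f ^ j).natDegree ≤ j * f.natDegree := natDegree_pow_le
      _ ≤ j * 2 := Nat.mul_le_mul_left j h2
      _ = 2 * j := Nat.mul_comm _ _
  rw [h1, coeff_mul, sum_eq_single (p * k, j)]
  · simp only
    rw [coeff_expand_mul' hp.pos]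
  · rintro ⟨a, b⟩ hab hne
    rw [HasAntidiagonal.mem_antidiagonal] at hab
    simp only at hab ⊢
    rw [coeff_expand hp.pos]
    split_ifs with hd
    · obtain ⟨i, rfl⟩ := hd
      have hb : (f ^ j).coeff b = 0 := by
        apply coeff_eq_zero_of_natDegree_lt
        refine lt_of_le_of_lt hdeg ?_
        rcases Nat.lt_trichotomy i k with h | h | h
        · have : p * i + p ≤ p * k := by
            calc p * i + p = p * (i + 1) := by ring
              _ ≤ p * k := Nat.mul_le_mul_left p h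
          omega
        · subst h
          have hbj : b = j := by omega
          rw [hbj] at hne
          exact absurd rfl hne
        · have : p * k + p ≤ p * i := by
            calc p * k + p = p * (k + 1) := by ring
              _ ≤ p * i := Nat.mul_le_mul_left p h
          omega
      rw [hb, mul_zero]
    · rw [zero_mul]
  · intro h
    exact absurd (HasAntidiagonal.mem_antidiagonal.2 (rfl : p * k + j = p * k + j)) h

theorem cB_lucas {p : ℕ} (hp : p.Prime) (h2 : p % 2 = 1) (k j : ℕ) (hj : j < p) :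
    (((p * k + j).centralBinom : ℕ) : ZMod p)
      = ((k.centralBinom : ℕ) : ZMod p) * ((j.centralBinom : ℕ) : ZMod p) := by
  have : Fact p.Prime := ⟨hp⟩
  have hpos := hp.pos
  have key : ∀ a b : ℕ, ((a.choose b : ℕ) : ZMod p)
      = (((a % p).choose (b % p) * (a / p).choose (b / p) : ℕ) : ZMod p) := by
    intro a b
    rw [ZMod.natCast_eq_natCast_iff]
    exact Choose.choose_modEq_choose_mod_mul_choose_div_nat
  rw [Nat.centralBinom_eq_two_mul_choose, Nat.centralBinom_eq_two_mul_choose,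
    Nat.centralBinom_eq_two_mul_choose, key]
  have m1 : (p * k + j) % p = j := by
    rw [Nat.mul_add_mod, Nat.mod_eq_of_lt hj]
  have d1 : (p * k + j) / p = k := by
    rw [Nat.mul_add_div hpos, Nat.div_eq_of_lt hj, Nat.add_zero]
  rw [m1, d1]
  rcases Nat.lt_or_ge (2 * j) p with h | h
  · have e : 2 * (p * k + j) = p * (2 * k) + 2 * j := by ring
    rw [e, Nat.mul_add_mod, Nat.mod_eq_of_lt h, Nat.mul_add_div hpos, Nat.div_eq_of_lt h,
      Nat.add_zero]
    push_cast
    ring
  · have e : 2 * (p * k + j) = p * (2 * k + 1) + (2 * j - p) := by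
      have : p * (2 * k + 1) = 2 * (p * k) + p := by ring
      omega
    have hlt : 2 * j - p < p := by omega
    rw [e, Nat.mul_add_mod, Nat.mod_eq_of_lt hlt, key (2 * j) j]
    have e2 : 2 * j = p * 1 + (2 * j - p) := by omega
    have e3 : (2 * j) % p = 2 * j - p := by
      rw [e2, Nat.mul_add_mod, Nat.mod_eq_of_lt hlt]
      omega
    rw [e3, Nat.mod_eq_of_lt hj, Nat.choose_eq_zero_of_lt (by omega : 2 * j - p < j)]
    simp

/-- the terms -/
noncomputable def uu (k : ℕ) : ℤ := (-1) ^ k * ((k.centralBinom : ℕ) : ℤ) ^ 2 * tri k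

theorem uu_lucas {p : ℕ} (hp : p.Prime) (h2 : p % 2 = 1) (k j : ℕ) (hj : j < p) :
    ((uu (p * k + j) : ℤ) : ZMod p) = (uu k : ZMod p) * (uu j : ZMod p) := by
  unfold uu
  push_cast
  rw [tri_lucas hp k j hj, cB_lucas hp h2 k j hj]
  have h3 : (-1 : ZMod p) ^ (p * k + j) = (-1) ^ k * (-1) ^ j := by
    rw [pow_add, pow_mul, Odd.neg_one_pow (Nat.odd_iff.2 h2)]
  rw [h3]
  ring

theorem Dsum_uu (m : ℕ) : Dsum m = ∑ k ∈ range m, (105 * (k : ℤ) + 44) * uu k := by
  unfold Dsum uu
  apply sum_congr rfl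
  intro k _
  ring

theorem Dsum_block {p : ℕ} (hp : p.Prime) (h2 : p % 2 = 1) (N j : ℕ) (hj : j ≤ p) :
    ((Dsum (p * N + j) : ℤ) : ZMod p)
      = ((Dsum (p * N) : ℤ) : ZMod p) + (uu N : ZMod p) * ((Dsum j : ℤ) : ZMod p) := by
  rw [Dsum_uu, sum_range_add, ← Dsum_uu, Dsum_uu j]
  push_cast
  congr 1
  rw [mul_sum]
  apply sum_congr rfl
  intro i hi
  rw [mem_range] at hi
  rw [uu_lucas hp h2 N i (by omega)]
  simp
  ring

theorem Dsum_mul {p : ℕ} (hp : p.Prime) (h2 : p % 2 = 1) (h : (p : ℤ) ∣ Dsum p) (N : ℕ) :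
    ((Dsum (p * N) : ℤ) : ZMod p) = 0 := by
  induction N with
  | zero => simp [Dsum]
  | succ N ih =>
    have e : p * (N + 1) = p * N + p := by ring
    rw [e, Dsum_block hp h2 N p le_rfl, ih, (ZMod.intCast_zmod_eq_zero_iff_dvd _ _).2 h]
    simp

theorem Dsum_half {p : ℕ} (hp : p.Prime) (h2 : p % 2 = 1) {j : ℕ} (hj : j ≤ p) (hj2 : p < 2 * j)
    (h : (p : ℤ) ∣ Dsum p) : ((Dsum j : ℤ) : ZMod p) = 0 := by
  have h1 : ((Dsum p : ℤ) : ZMod p) = 0 := (ZMod.intCast_zmod_eq_zero_iff_dvd _ _).2 h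
  rw [← h1]
  have hsub : range j ⊆ range p := by
    intro k
    simp only [mem_range]
    omega
  rw [Dsum_uu, Dsum_uu]
  push_cast
  apply sum_subset hsub
  intro k hk hk2
  rw [mem_range] at hk hk2
  have h3 : p ∣ k.centralBinom := p_dvd hp (n := p / 2) (by omega) k (by omega) hk
  have h4 : ((k.centralBinom : ℕ) : ZMod p) = 0 := (ZMod.natCast_eq_zero_iff _ _).2 h3
  unfold uu
  push_cast
  rw [h4]
  ring

/-- each prime `p` with `p ∣ Dsum p` that divides `n * C(2n,n)` divides `Dsum n` -/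
theorem dvd_Dsum {p : ℕ} (hp : p.Prime) (h2 : p % 2 = 1) (h : (p : ℤ) ∣ Dsum p) {m : ℕ}
    (hm : p ∣ m * m.centralBinom) : (p : ℤ) ∣ Dsum m := by
  have hpos := hp.pos
  rw [← ZMod.intCast_zmod_eq_zero_iff_dvd]
  obtain ⟨N, j, hj, rfl⟩ : ∃ N j, j < p ∧ m = p * N + j :=
    ⟨m / p, m % p, Nat.mod_lt _ hpos, (Nat.div_add_mod m p).symm⟩
  rw [Dsum_block hp h2 N j hj.le, Dsum_mul hp h2 h N, zero_add]
  rcases Nat.eq_zero_or_pos j with h0 | h0
  · subst h0
    simp [Dsum]
  · have h3 : ((((p * N + j) * (p * N + j).centralBinom : ℕ)) : ZMod p) = 0 :=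
      (ZMod.natCast_eq_zero_iff _ _).2 hm
    have : Fact p.Prime := ⟨hp⟩
    push_cast at h3
    rw [cB_lucas hp h2 N j hj] at h3
    simp only [CharP.cast_eq_zero, zero_mul, zero_add, mul_eq_zero] at h3
    rcases h3 with h4 | h4 | h4
    · exfalso
      rw [ZMod.natCast_eq_zero_iff] at h4
      exact absurd h4 (Nat.not_dvd_of_pos_of_lt h0 hj)
    · unfold uu
      push_cast
      rw [h4]
      ring
    · have h5 : p < 2 * j := by
        by_contra h6
        rw [ZMod.natCast_eq_zero_iff, Nat.centralBinom_eq_two_mul_choose] at h4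
        have h7 := Nat.factorization_choose_eq_zero_of_lt (k := j) (by omega : 2 * j < p)
        have h8 : 0 < ((2 * j).choose j).factorization p :=
          hp.factorization_pos_of_dvd (Nat.choose_pos (by omega)).ne' h4
        omega
      rw [Dsum_half hp h2 hj.le h5 h, mul_zero]

end Pool.Agent.CTS
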