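import Pool.Agent.CTS.Pos
import Mathlib.NumberTheory.LegendreSymbol.JacobiSymbol

/-!
# The three partial answers
-/

set_option autoImplicit false

namespace Pool.Agent.CTS

open Finset

theorem jac3 {p : ℕ} : (p % 3 = 1 → jacobiSym (p : ℤ) 3 = 1) ∧ (p % 3 = 2 → jacobiSym (p : ℤ) 3 = -1) := by
  constructor
  · intro h
    rw [jacobiSym.mod_left, show ((p : ℤ) % ((3 : ℕ) : ℤ)) = 1 by omega]
    simp
  · intro h
    rw [jacobiSym.mod_left, show ((p : ℤ) % ((3 : ℕ) : ℤ)) = 2 by omega]
    norm_num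

theorem b_ring {R : Type*} [CommRing R] {p n : ℕ} (hp : p.Prime) (hn : p = 2 * n + 1)
    (h0 : (p : R) ^ 2 = 0) (u2 : IsUnit (2 : R)) (u15 : IsUnit (15 : R)) {g w : R}
    (hg : g ^ 2 = g + 1) (hw : w ^ 2 = -1 - w) (c5 : p % 5 ≠ 0) :
    (p % 3 = 1 → ((Dsum p : ℤ) : R) = (p : R) * 44)
    ∧ (p % 3 = 2 → ((Dsum p : ℤ) : R) = (p : R) * (-4)) := by
  have hg' : (1 - g) ^ 2 = (1 - g) + 1 := by linear_combination hg
  have hw' : (-1 - w) ^ 2 = -1 - (-1 - w) := by linear_combination hw
  have hc5 : (p % 5 = 1 ∨ p % 5 = 4) ∨ (p % 5 = 2 ∨ p % 5 = 3) := by omega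
  constructor
  · intro c3
    rcases hc5 with c5 | c5
    · exact D_split hp hn h0 u2 u15 hg hw hg hw (Fr_g1 hg u2 hp hn c5) (Fr_w1 hw c3) rfl
        (spA hg hw)
    · exact D_inert hp hn h0 u2 u15 hg hw hg' hw (Fr_g2 hg u2 hp hn c5) (Fr_w1 hw c3)
        (by unfold dD; ring) (inA hg hw)
  · intro c3
    rcases hc5 with c5 | c5
    · exact D_inert hp hn h0 u2 u15 hg hw hg hw' (Fr_g1 hg u2 hp hn c5) (Fr_w2 hw c3)
        (by unfold dD; ring) (inB hg hw)
    · exact D_split hp hn h0 u2 u15 hg hw hg' hw' (Fr_g2 hg u2 hp hn c5) (Fr_w2 hw c3)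
        (by unfold dD; ring) (spB hg hw)

theorem b_mod_sq {p : ℕ} (hp : p.Prime) (h3 : 3 < p) :
    ((p : ℤ) ^ 2) ∣ Dsum p - (p : ℤ) * (20 + 24 * jacobiSym (p : ℤ) 3) := by
  have hodd : p % 2 = 1 := by
    rcases hp.eq_two_or_odd with h1 | h1
    · omega
    · exact h1
  have hm3 : p % 3 ≠ 0 := by
    intro h
    have := (Nat.prime_dvd_prime_iff_eq Nat.prime_three hp).1 (Nat.dvd_of_mod_eq_zero h)
    omega
  by_cases h5 : p = 5
  · subst h5
    rw [Dsum_5, jac3.2 (by norm_num)]
    norm_num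
  have hm5 : p % 5 ≠ 0 := by
    intro h
    have := (Nat.prime_dvd_prime_iff_eq Nat.prime_five hp).1 (Nat.dvd_of_mod_eq_zero h)
    omega
  obtain ⟨n, hn⟩ : ∃ n, p = 2 * n + 1 := ⟨p / 2, by omega⟩
  have hn2 : ¬ p ∣ 2 := by
    intro h4
    have := (Nat.prime_dvd_prime_iff_eq hp Nat.prime_two).1 h4
    omega
  have h15 : ¬ p ∣ 15 := by
    intro h4
    have h5 : p ∣ 3 * 5 := h4
    rcases (Nat.Prime.dvd_mul hp).1 h5 with h6 | h6
    · have := (Nat.prime_dvd_prime_iff_eq hp Nat.prime_three).1 h6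
      omega
    · have := (Nat.prime_dvd_prime_iff_eq hp Nat.prime_five).1 h6
      omega
  have u2 : IsUnit (2 : AR p) := by
    have := unit_AR hp hn2
    push_cast at this
    exact this
  have u15 : IsUnit (15 : AR p) := by
    have := unit_AR hp h15
    push_cast at this
    exact this
  have hb := b_ring hp hn (p_sq_AR p) u2 u15 (gA_sq p) (wA_sq p) hm5
  have hc3 : p % 3 = 1 ∨ p % 3 = 2 := by omega
  rcases hc3 with c3 | c3
  · rw [jac3.1 c3]
    apply int_eq_zero
    have := hb.1 c3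
    push_cast
    rw [this]
    ring
  · rw [jac3.2 c3]
    apply int_eq_zero
    have := hb.2 c3
    push_cast
    rw [this]
    ring

theorem p_dvd_Dsum {p : ℕ} (hp : p.Prime) (h3 : 3 < p) : (p : ℤ) ∣ Dsum p := by
  have h1 := b_mod_sq hp h3
  have h2 : (p : ℤ) ∣ Dsum p - (p : ℤ) * (20 + 24 * jacobiSym (p : ℤ) 3) :=
    (Dvd.intro (p : ℤ) (by ring)).trans h1
  have h3 := (dvd_sub_left (Dvd.intro (20 + 24 * jacobiSym (p : ℤ) 3) rfl)).1 h2
  exact h3

/-- the numbers `a_n` -/
noncomputable def aa (m : ℕ) : ℚ :=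
  (-1) ^ (m - 1) / (2 * (m : ℚ) * ((m.centralBinom : ℕ) : ℚ)) * ((Dsum m : ℤ) : ℚ)

theorem aa_pos {m : ℕ} (hm : 1 ≤ m) : 0 < aa m := by
  unfold aa
  have h1 := Dsum_pos hm
  have h2 : (0 : ℚ) < (-1) ^ (m - 1) * ((Dsum m : ℤ) : ℚ) := by exact_mod_cast h1
  have h3 : (0 : ℚ) < 2 * (m : ℚ) * ((m.centralBinom : ℕ) : ℚ) := by
    have h4 : 0 < m.centralBinom := Nat.centralBinom_pos m
    positivity
  have e : (-1 : ℚ) ^ (m - 1) / (2 * (m : ℚ) * ((m.centralBinom : ℕ) : ℚ)) * ((Dsum m : ℤ) : ℚ)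
      = ((-1) ^ (m - 1) * ((Dsum m : ℤ) : ℚ)) / (2 * (m : ℚ) * ((m.centralBinom : ℕ) : ℚ)) := by
    ring
  rw [e]
  exact div_pos h2 h3

/-- away from the small primes the denominators are trivial -/
theorem aa_den {p : ℕ} (hp : p.Prime) (h3 : 3 < p) {m : ℕ} (hm : 1 ≤ m) (hmp : 2 * m < p ^ 2) :
    ¬ p ∣ (aa m).den := by
  have hodd : p % 2 = 1 := by
    rcases hp.eq_two_or_odd with h1 | h1
    · omega
    · exact h1
  set c := m.centralBinom with hc
  have hcpos : 0 < c := Nat.centralBinom_pos m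
  -- a representation with denominator prime to `p`
  have key : ∃ (x : ℤ) (y : ℕ), ¬ p ∣ y ∧ aa m = (x : ℚ) / (y : ℚ) := by
    by_cases hd : p ∣ m * c
    · obtain ⟨D', hD'⟩ := dvd_Dsum hp hodd (p_dvd_Dsum hp h3) hd
      obtain ⟨q, hq⟩ := hd
      have hqp : ¬ p ∣ q := by
        intro h
        obtain ⟨r, hr⟩ := h
        have hcl : c.factorization p ≤ 1 := by
          rw [hc, Nat.centralBinom_eq_two_mul_choose]
          exact Nat.factorization_choose_le_one hmp
        have hsq : p ^ 2 ∣ m * c := ⟨r, by rw [hq, hr]; ring⟩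
        have hmc : m * c ≠ 0 := Nat.mul_ne_zero (by omega) hcpos.ne'
        have h2 : 2 ≤ (m * c).factorization p := (hp.pow_dvd_iff_le_factorization hmc).1 hsq
        rw [Nat.factorization_mul (by omega) hcpos.ne', Finsupp.add_apply] at h2
        have hm1 : 1 ≤ m.factorization p := by omega
        have hpm : p ∣ m := by
          have := (hp.pow_dvd_iff_le_factorization (by omega : m ≠ 0) (k := 1)).2 hm1
          rwa [pow_one] at this
        obtain ⟨N, hN⟩ := hpm
        have hNp : 2 * N < p := by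
          have : p * (2 * N) < p * p := by
            calc p * (2 * N) = 2 * m := by rw [hN]; ring
              _ < p ^ 2 := hmp
              _ = p * p := by ring
          exact lt_of_mul_lt_mul_left this (Nat.zero_le p)
        have hN0 : N ≠ 0 := by
          rintro rfl
          omega
        have hmf : m.factorization p ≤ 1 := by
          by_contra h7
          have h8 : p ^ 2 ∣ m := (hp.pow_dvd_iff_le_factorization (by omega : m ≠ 0)).2 (by omega)
          have := Nat.le_of_dvd (by omega) h8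
          omega
        have hc1 : 1 ≤ c.factorization p := by omega
        have hpc : p ∣ c := by
          have := (hp.pow_dvd_iff_le_factorization hcpos.ne' (k := 1)).2 hc1
          rwa [pow_one] at this
        have h9 : ((c : ℕ) : ZMod p) = 0 := (ZMod.natCast_eq_zero_iff _ _).2 hpc
        have h10 := cB_lucas hp hodd N 0 hp.pos
        rw [Nat.add_zero, ← hN, ← hc, h9] at h10
        simp only [Nat.centralBinom_zero, Nat.cast_one, mul_one] at h10
        have h11 := (ZMod.natCast_eq_zero_iff _ _).1 h10.symm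
        rw [Nat.centralBinom_eq_two_mul_choose] at h11
        have h12 := Nat.factorization_choose_eq_zero_of_lt (k := N) hNp
        have h13 : 0 < ((2 * N).choose N).factorization p :=
          hp.factorization_pos_of_dvd (Nat.choose_pos (by omega)).ne' h11
        omega
      refine ⟨(-1) ^ (m - 1) * D', 2 * q, ?_, ?_⟩
      · intro h
        rcases (Nat.Prime.dvd_mul hp).1 h with h4 | h4
        · have := (Nat.prime_dvd_prime_iff_eq hp Nat.prime_two).1 h4
          omega
        · exact hqp h4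
      · unfold aa
        have e1 : (m : ℚ) * ((m.centralBinom : ℕ) : ℚ) = (p : ℚ) * (q : ℚ) := by exact_mod_cast hq
        have e2 : 2 * (m : ℚ) * ((m.centralBinom : ℕ) : ℚ) = 2 * ((p : ℚ) * (q : ℚ)) := by
          rw [← e1]
          ring
        have hp0 : (p : ℚ) ≠ 0 := by exact_mod_cast hp.ne_zero
        have hq0 : (q : ℚ) ≠ 0 := by
          intro h
          apply hqp
          have : q = 0 := by exact_mod_cast h
          rw [this]
          exact dvd_zero p
        rw [e2, hD']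
        push_cast
        field_simp
    · refine ⟨(-1) ^ (m - 1) * Dsum m, 2 * (m * c), ?_, ?_⟩
      · intro h
        rcases (Nat.Prime.dvd_mul hp).1 h with h4 | h4
        · have := (Nat.prime_dvd_prime_iff_eq hp Nat.prime_two).1 h4
          omega
        · exact hd h4
      · unfold aa
        push_cast
        ring
  obtain ⟨x, y, hy, hxy⟩ := key
  intro h
  apply hy
  have h1 := Rat.den_dvd x (y : ℤ)
  rw [Rat.divInt_eq_div] at h1
  push_cast at h1
  rw [← hxy] at h1
  have h2 : (aa m).den ∣ y := by exact_mod_cast h1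
  exact h.trans h2

end Pool.Agent.CTS
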