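import Pool.Agent.CTS.Luc

/-!
# Positivity, and the prime five
-/

set_option autoImplicit false

namespace Pool.Agent.CTS

open Finset Polynomial

theorem tri_step (k j : ℕ) : ((1 + X + X ^ 2 : ℤ[X]) ^ (k + 1)).coeff (j + 1)
    = ((1 + X + X ^ 2 : ℤ[X]) ^ k).coeff (j + 1) + ((1 + X + X ^ 2 : ℤ[X]) ^ k).coeff j
      + (if 1 ≤ j then ((1 + X + X ^ 2 : ℤ[X]) ^ k).coeff (j - 1) else 0) := by
  rw [pow_succ, mul_add, mul_add, mul_one, coeff_add, coeff_add, coeff_mul_X, coeff_mul_X_pow']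
  congr 1
  rcases j with _ | j
  · simp
  · simp

theorem tri_zero_coeff (k : ℕ) : ((1 + X + X ^ 2 : ℤ[X]) ^ k).coeff 0 = 1 := by
  rw [coeff_zero_eq_eval_zero]
  simp

theorem coeff_nonneg (k : ℕ) : ∀ j, 0 ≤ ((1 + X + X ^ 2 : ℤ[X]) ^ k).coeff j := by
  induction k with
  | zero =>
    intro j
    rw [pow_zero, coeff_one]
    split_ifs <;> norm_num
  | succ k ih =>
    intro j
    rcases j with _ | j
    · rw [tri_zero_coeff]
      norm_num
    · rw [tri_step]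
      have h1 := ih (j + 1)
      have h2 := ih j
      have h3 : 0 ≤ (if 1 ≤ j then ((1 + X + X ^ 2 : ℤ[X]) ^ k).coeff (j - 1) else 0) := by
        split_ifs
        · exact ih (j - 1)
        · exact le_rfl
      linarith

theorem tri_mono (k : ℕ) : tri k ≤ tri (k + 1) := by
  unfold tri
  rw [tri_step]
  have h1 := coeff_nonneg k (k + 1)
  have h3 : 0 ≤ (if 1 ≤ k then ((1 + X + X ^ 2 : ℤ[X]) ^ k).coeff (k - 1) else 0) := by
    split_ifs
    · exact coeff_nonneg k (k - 1)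
    · exact le_rfl
  linarith

theorem tri_pos (k : ℕ) : 1 ≤ tri k := by
  induction k with
  | zero => simp [tri]
  | succ k ih => exact ih.trans (tri_mono k)

/-- absolute values of the terms -/
noncomputable def vv (k : ℕ) : ℤ :=
  (105 * (k : ℤ) + 44) * ((k.centralBinom : ℕ) : ℤ) ^ 2 * tri k

theorem vv_pos (k : ℕ) : 0 < vv k := by
  unfold vv
  have h1 := tri_pos k
  have h2 : 0 < ((k.centralBinom : ℕ) : ℤ) := by exact_mod_cast Nat.centralBinom_pos k
  positivity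

theorem cB_mono (k : ℕ) : ((k.centralBinom : ℕ) : ℤ) ≤ (((k + 1).centralBinom : ℕ) : ℤ) := by
  have h := Nat.succ_mul_centralBinom_succ k
  have h2 : ((k : ℤ) + 1) * (((k + 1).centralBinom : ℕ) : ℤ)
      = 2 * (2 * (k : ℤ) + 1) * ((k.centralBinom : ℕ) : ℤ) := by exact_mod_cast h
  have h3 : 0 < ((k.centralBinom : ℕ) : ℤ) := by exact_mod_cast Nat.centralBinom_pos k
  have h4 : 0 ≤ (k : ℤ) := Int.natCast_nonneg k
  by_contra h5
  push_neg at h5
  nlinarith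

theorem vv_lt (k : ℕ) : vv k < vv (k + 1) := by
  unfold vv
  have h1 := tri_pos k
  have h2 := tri_mono k
  have h3 : 0 < ((k.centralBinom : ℕ) : ℤ) := by exact_mod_cast Nat.centralBinom_pos k
  have h4 := cB_mono k
  have h5 : 0 ≤ (k : ℤ) := Int.natCast_nonneg k
  push_cast
  have e1 : ((k.centralBinom : ℕ) : ℤ) ^ 2 ≤ (((k + 1).centralBinom : ℕ) : ℤ) ^ 2 :=
    pow_le_pow_left₀ h3.le h4 2
  have e0 : 0 < ((k.centralBinom : ℕ) : ℤ) ^ 2 := by positivity
  have e2 : ((k.centralBinom : ℕ) : ℤ) ^ 2 * tri k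
      ≤ (((k + 1).centralBinom : ℕ) : ℤ) ^ 2 * tri (k + 1) :=
    mul_le_mul e1 h2 (by linarith) (by positivity)
  have e3 : 0 < ((k.centralBinom : ℕ) : ℤ) ^ 2 * tri k := by positivity
  have e4 : (105 * (k : ℤ) + 44) * (((k.centralBinom : ℕ) : ℤ) ^ 2 * tri k)
      < (105 * ((k : ℤ) + 1) + 44) * ((((k + 1).centralBinom : ℕ) : ℤ) ^ 2 * tri (k + 1)) := by
    nlinarith
  linarith

theorem Dsum_succ (m : ℕ) : Dsum (m + 1) = Dsum m + (-1) ^ m * vv m := by
  unfold Dsum vv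
  rw [sum_range_succ]
  ring

theorem alt_bound (m : ℕ) : 0 < (-1) ^ m * Dsum (m + 1) ∧ (-1) ^ m * Dsum (m + 1) ≤ vv m := by
  induction m with
  | zero =>
    rw [Dsum_succ]
    have := vv_pos 0
    simp only [pow_zero, one_mul]
    have h0 : Dsum 0 = 0 := by simp [Dsum]
    rw [h0]
    constructor <;> linarith
  | succ m ih =>
    rw [Dsum_succ (m + 1)]
    have h1 := vv_lt m
    have h2 : ((-1 : ℤ) ^ (m + 1)) * (-1) ^ (m + 1) = 1 := by
      rw [← mul_pow]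
      norm_num
    have h3 : (-1 : ℤ) ^ (m + 1) * (Dsum (m + 1) + (-1) ^ (m + 1) * vv (m + 1))
        = vv (m + 1) - (-1) ^ m * Dsum (m + 1) := by
      have : (-1 : ℤ) ^ (m + 1) = -(-1) ^ m := by rw [pow_succ]; ring
      rw [this] at h2 ⊢
      linear_combination vv (m + 1) * h2
    rw [h3]
    constructor <;> linarith [ih.1, ih.2]

theorem Dsum_pos {m : ℕ} (hm : 1 ≤ m) : 0 < (-1) ^ (m - 1) * Dsum m := by
  obtain ⟨k, rfl⟩ : ∃ k, m = k + 1 := ⟨m - 1, by omega⟩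
  have := (alt_bound k).1
  simpa using this

theorem tri_0 : tri 0 = 1 := by simp [tri]

theorem tri_1 : tri 1 = 1 := by
  unfold tri
  rw [pow_one]
  simp [coeff_one, coeff_X_pow]

theorem tri_2 : tri 2 = 3 := by
  unfold tri
  have : (1 + X + X ^ 2 : ℤ[X]) ^ 2 = C 1 + C 2 * X + C 3 * X ^ 2 + C 2 * X ^ 3 + C 1 * X ^ 4 := by
    simp only [map_ofNat, map_one]
    ring
  rw [this]
  simp [coeff_one, coeff_X_pow, coeff_X, coeff_C]

theorem tri_3 : tri 3 = 7 := by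
  unfold tri
  have : (1 + X + X ^ 2 : ℤ[X]) ^ 3 = C 1 + C 3 * X + C 6 * X ^ 2 + C 7 * X ^ 3 + C 6 * X ^ 4
      + C 3 * X ^ 5 + C 1 * X ^ 6 := by
    simp only [map_ofNat, map_one]
    ring
  rw [this]
  simp [coeff_one, coeff_X_pow, coeff_X, coeff_C]

theorem tri_4 : tri 4 = 19 := by
  unfold tri
  have : (1 + X + X ^ 2 : ℤ[X]) ^ 4 = C 1 + C 4 * X + C 10 * X ^ 2 + C 16 * X ^ 3 + C 19 * X ^ 4
      + C 16 * X ^ 5 + C 10 * X ^ 6 + C 4 * X ^ 7 + C 1 * X ^ 8 := by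
    simp only [map_ofNat, map_one]
    ring
  rw [this]
  simp [coeff_one, coeff_X_pow, coeff_X, coeff_C]

theorem Dsum_5 : Dsum 5 = 42220080 := by
  unfold Dsum
  simp only [sum_range_succ, sum_range_zero, tri_0, tri_1, tri_2, tri_3, tri_4,
    Nat.centralBinom_eq_two_mul_choose]
  norm_num [Nat.choose]

end Pool.Agent.CTS
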