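import Mathlib

/-!
# A product formula for Legendre polynomials

`AA n k = C(n,k) C(n+k,k)`; `PP n X = sum_i (-1)^i AA n i X^i` is the Legendre polynomial
`P_n(1 - 2X)`. We prove `PP n X * PP n Y = sum_k AA n k * EE n k X Y`, where `EE n k X Y` is the
coefficient of `t^k` in `((1 - X(1+t)) (1 - Y(1+t)))^k`, and the derived formula with the factor `k`.
-/

set_option autoImplicit false

namespace Pool.Agent.CTS

open Finset

/-- `C(n,k) C(n+k,k)` -/
def AA (n k : ℕ) : ℕ := n.choose k * (n + k).choose k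

theorem AA_zero (n : ℕ) : AA n 0 = 1 := by simp [AA]

theorem AA_big {n k : ℕ} (h : n < k) : AA n k = 0 := by
  simp [AA, Nat.choose_eq_zero_of_lt h]

/-- `(k+1)^2 AA n (k+1) = (n(n+1) - k(k+1)) AA n k` -/
theorem AA_succ (n k : ℕ) :
    ((k : ℤ) + 1) ^ 2 * (AA n (k + 1) : ℤ) = ((n : ℤ) * (n + 1) - k * (k + 1)) * (AA n k : ℤ) := by
  have h1 : ((n.choose (k + 1) : ℕ) : ℤ) * ((k : ℤ) + 1) = (n.choose k : ℤ) * ((n : ℤ) - k) := by
    rcases le_or_gt k n with h | h
    · have := Nat.choose_succ_right_eq n k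
      have h2 : ((n.choose (k + 1) * (k + 1) : ℕ) : ℤ) = ((n.choose k * (n - k) : ℕ) : ℤ) := by
        rw [this]
      push_cast [Nat.cast_sub h] at h2
      exact h2
    · simp [Nat.choose_eq_zero_of_lt h, Nat.choose_eq_zero_of_lt (Nat.lt_succ_of_lt h)]
  have h3 : (((n + (k + 1)).choose (k + 1) : ℕ) : ℤ) * ((k : ℤ) + 1)
      = ((n + k).choose k : ℤ) * ((n : ℤ) + k + 1) := by
    have := Nat.add_one_mul_choose_eq (n + k) k
    have h4 : (((n + k + 1) * (n + k).choose k : ℕ) : ℤ)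
        = (((n + k + 1).choose (k + 1) * (k + 1) : ℕ) : ℤ) := by
      rw [this]
    push_cast at h4
    have h5 : n + (k + 1) = n + k + 1 := rfl
    rw [h5]
    linear_combination -h4
  unfold AA
  push_cast
  linear_combination (((n + (k + 1)).choose (k + 1) : ℕ) : ℤ) * ((k : ℤ) + 1) * h1
    + (n.choose k : ℤ) * ((n : ℤ) - k) * h3

/-- the coefficient in the product formula -/
def cc (a b k : ℕ) : ℕ := k.choose a * k.choose b * (a + b).choose k

theorem choose_down (k a : ℕ) :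
    ((k : ℤ) + 1) * (k.choose a : ℤ) = ((k : ℤ) + 1 - a) * ((k + 1).choose a : ℤ) := by
  have h := Nat.add_one_mul_choose_eq k a
  have h1 : (k + 1).choose (a + 1) = k.choose a + k.choose (a + 1) := Nat.choose_succ_succ k a
  rcases le_or_gt a (k + 1) with ha | ha
  · have h2 := Nat.choose_mul_succ_eq k a
    have h3 : ((k.choose a * (k + 1) : ℕ) : ℤ) = (((k + 1).choose a * (k + 1 - a) : ℕ) : ℤ) := by
      rw [h2]
    push_cast [Nat.cast_sub ha] at h3
    linear_combination h3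
  · rw [Nat.choose_eq_zero_of_lt (by omega : k < a), Nat.choose_eq_zero_of_lt ha]
    simp

theorem choose_up (m k : ℕ) :
    ((k : ℤ) + 1) * (m.choose (k + 1) : ℤ) = ((m : ℤ) - k) * (m.choose k : ℤ) := by
  rcases le_or_gt k m with h | h
  · have := Nat.choose_succ_right_eq m k
    have h2 : ((m.choose (k + 1) * (k + 1) : ℕ) : ℤ) = ((m.choose k * (m - k) : ℕ) : ℤ) := by
      rw [this]
    push_cast [Nat.cast_sub h] at h2
    linear_combination h2
  · simp [Nat.choose_eq_zero_of_lt h, Nat.choose_eq_zero_of_lt (Nat.lt_succ_of_lt h)]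

theorem cc_step (a b k : ℕ) :
    ((k : ℤ) + 1) ^ 2 * (cc a b k : ℤ) + ((k : ℤ) + 1 - b) * (k + b + 2) * (cc a b (k + 1) : ℤ)
      = ((b : ℤ) + 1) ^ 2 * (cc a (b + 1) (k + 1) : ℤ) := by
  have h1 := choose_down k a
  have h2 := choose_down k b
  have h3 := choose_up (k + 1) b
  have h4 := choose_up (a + b) k
  have h5 : (((a + (b + 1)).choose (k + 1) : ℕ) : ℤ)
      = ((a + b).choose k : ℤ) + ((a + b).choose (k + 1) : ℤ) := by
    have : a + (b + 1) = (a + b) + 1 := rfl
    rw [this, Nat.choose_succ_succ]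
    push_cast
    ring
  unfold cc
  push_cast at h3 h4 ⊢
  rw [h5]
  linear_combination (((k : ℤ) + 1) * (k.choose b : ℤ) * ((a + b).choose k : ℤ)) * h1
    + (((k : ℤ) + 1 - a) * ((k + 1).choose a : ℤ) * ((a + b).choose k : ℤ)) * h2
    - (((b : ℤ) + 1) * ((k + 1).choose a : ℤ)
        * (((a + b).choose k : ℤ) + ((a + b).choose (k + 1) : ℤ))) * h3
    + (((k : ℤ) + 1 - b) * ((k + 1).choose a : ℤ) * ((k + 1).choose b : ℤ)) * h4

theorem cc_big {a b k : ℕ} (h : a + b < k) : cc a b k = 0 := by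
  simp [cc, Nat.choose_eq_zero_of_lt h]

theorem AA_mul (n a b : ℕ) :
    (AA n a : ℤ) * (AA n b : ℤ) = ∑ k ∈ range (a + b + 1), (AA n k : ℤ) * (cc a b k : ℤ) := by
  induction b with
  | zero =>
    rw [sum_range_succ]
    have h0 : ∑ k ∈ range a, (AA n k : ℤ) * (cc a 0 k : ℤ) = 0 := by
      apply sum_eq_zero
      intro k hk
      rw [mem_range] at hk
      have : cc a 0 k = 0 := by
        simp [cc, Nat.choose_eq_zero_of_lt (by omega : k < a)]
      rw [this]
      simp
    rw [h0]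
    simp [cc, AA_zero]
  | succ b ih =>
    have hb : ((b : ℤ) + 1) ^ 2 ≠ 0 := by positivity
    apply mul_left_cancel₀ hb
    have e1 : ((b : ℤ) + 1) ^ 2 * ((AA n a : ℤ) * (AA n (b + 1) : ℤ))
        = ((AA n a : ℤ) * (AA n b : ℤ)) * ((n : ℤ) * (n + 1) - b * (b + 1)) := by
      linear_combination (AA n a : ℤ) * AA_succ n b
    rw [e1, ih, sum_mul]
    have e2 : ∀ k ∈ range (a + b + 1), (AA n k : ℤ) * (cc a b k : ℤ)
        * ((n : ℤ) * (n + 1) - b * (b + 1))
        = (AA n (k + 1) : ℤ) * (((k : ℤ) + 1) ^ 2 * (cc a b k : ℤ))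
          + (AA n k : ℤ) * (((k : ℤ) - b) * (k + b + 1) * (cc a b k : ℤ)) := by
      intro k _
      linear_combination -(cc a b k : ℤ) * AA_succ n k
    rw [sum_congr rfl e2, sum_add_distrib]
    have e3 : ∑ k ∈ range (a + b + 1), (AA n k : ℤ) * (((k : ℤ) - b) * (k + b + 1) * (cc a b k : ℤ))
        = ∑ k ∈ range (a + b + 1 + 1),
          (AA n k : ℤ) * (((k : ℤ) - b) * (k + b + 1) * (cc a b k : ℤ)) := by
      rw [sum_range_succ _ (a + b + 1), cc_big (by omega : a + b < a + b + 1)]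
      simp
    rw [e3, sum_range_succ' _ (a + b + 1)]
    have e4 : (AA n 0 : ℤ) * ((((0 : ℕ) : ℤ) - b) * (((0 : ℕ) : ℤ) + b + 1) * (cc a b 0 : ℤ)) = 0 := by
      rcases Nat.eq_zero_or_pos b with h | h
      · subst h
        simp
      · have : cc a b 0 = 0 := by
          simp [cc, Nat.choose_eq_zero_of_lt h]
        rw [this]
        simp
    rw [e4, add_zero, ← sum_add_distrib]
    have e5 : a + (b + 1) + 1 = (a + b + 1) + 1 := rfl
    rw [e5, sum_range_succ' _ (a + b + 1)]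
    have e6 : (AA n 0 : ℤ) * (cc a (b + 1) 0 : ℤ) = 0 := by
      simp [cc]
    rw [e6, add_zero, mul_sum]
    apply sum_congr rfl
    intro k _
    have := cc_step a b k
    push_cast
    linear_combination (AA n (k + 1) : ℤ) * this

/-- sums up to `n` -/
theorem AA_mul' {n a b : ℕ} (ha : a ≤ n) (hb : b ≤ n) :
    (AA n a : ℤ) * (AA n b : ℤ) = ∑ k ∈ range (n + 1), (AA n k : ℤ) * (cc a b k : ℤ) := by
  rw [AA_mul]
  have h1 : ∑ k ∈ range (a + b + 1), (AA n k : ℤ) * (cc a b k : ℤ)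
      = ∑ k ∈ range (2 * n + 1), (AA n k : ℤ) * (cc a b k : ℤ) := by
    apply sum_subset
    · intro k hk
      rw [mem_range] at *
      omega
    · intro k _ hk
      rw [mem_range, not_lt] at hk
      rw [cc_big (by omega : a + b < k)]
      simp
  have h2 : ∑ k ∈ range (n + 1), (AA n k : ℤ) * (cc a b k : ℤ)
      = ∑ k ∈ range (2 * n + 1), (AA n k : ℤ) * (cc a b k : ℤ) := by
    apply sum_subset
    · intro k hk
      rw [mem_range] at *
      omega
    · intro k _ hk
      rw [mem_range, not_lt] at hk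
      rw [AA_big (by omega : n < k)]
      simp
  rw [h1, h2]

section ring

variable {R : Type*} [CommRing R]

/-- `P_n(1 - 2X)` -/
def PP (n : ℕ) (X : R) : R := ∑ i ∈ range (n + 1), (-1) ^ i * (AA n i : R) * X ^ i

/-- `X d/dX` of `PP` -/
def TP (n : ℕ) (X : R) : R := ∑ i ∈ range (n + 1), (i : R) * ((-1) ^ i * (AA n i : R) * X ^ i)

/-- the double sum; it does not depend on `n ≥ k` -/
def EE (n k : ℕ) (X Y : R) : R :=
  ∑ a ∈ range (n + 1), ∑ b ∈ range (n + 1), (-1) ^ (a + b) * (cc a b k : R) * X ^ a * Y ^ b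

theorem PP_mul (n : ℕ) (X Y : R) :
    PP n X * PP n Y = ∑ k ∈ range (n + 1), (AA n k : R) * EE n k X Y := by
  unfold PP EE
  rw [sum_mul_sum]
  have h1 : ∀ a ∈ range (n + 1), ∀ b ∈ range (n + 1),
      ((-1) ^ a * (AA n a : R) * X ^ a) * ((-1) ^ b * (AA n b : R) * Y ^ b)
        = ∑ k ∈ range (n + 1), (AA n k : R) * ((-1) ^ (a + b) * (cc a b k : R) * X ^ a * Y ^ b) := by
    intro a ha b hb
    rw [mem_range] at ha hb
    have h := AA_mul' (n := n) (a := a) (b := b) (by omega) (by omega)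
    have h' : (AA n a : R) * (AA n b : R) = ∑ k ∈ range (n + 1), (AA n k : R) * (cc a b k : R) := by
      have := congrArg (Int.cast : ℤ → R) h
      push_cast at this
      exact this
    calc ((-1) ^ a * (AA n a : R) * X ^ a) * ((-1) ^ b * (AA n b : R) * Y ^ b)
        = ((AA n a : R) * (AA n b : R)) * ((-1) ^ (a + b) * X ^ a * Y ^ b) := by ring
      _ = _ := by
        rw [h', sum_mul]
        apply sum_congr rfl
        intro k _
        ring
  rw [sum_congr rfl (fun a ha => sum_congr rfl (h1 a ha))]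
  have h2 : ∀ a ∈ range (n + 1),
      ∑ b ∈ range (n + 1), ∑ k ∈ range (n + 1),
        (AA n k : R) * ((-1) ^ (a + b) * (cc a b k : R) * X ^ a * Y ^ b)
      = ∑ k ∈ range (n + 1), ∑ b ∈ range (n + 1),
        (AA n k : R) * ((-1) ^ (a + b) * (cc a b k : R) * X ^ a * Y ^ b) := by
    intro a _
    exact sum_comm
  rw [sum_congr rfl h2, sum_comm]
  apply sum_congr rfl
  intro k _
  rw [mul_sum]
  apply sum_congr rfl
  intro a _
  rw [mul_sum]

/-- coefficients of the double sum, general version of the sums -/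
def ww (k a b : ℕ) : ℤ := (-1) ^ (a + b) * (cc a b k : ℤ)

theorem ww_step (k a b : ℕ) :
    ((a : ℤ) + b - k) * ww k a b
      = (-1) ^ (a + b) * ((a + b : ℕ) : ℤ) * (k.choose a : ℤ) * (k.choose b : ℤ)
        * ((a + b - 1).choose k : ℤ) := by
  unfold ww cc
  rcases Nat.eq_zero_or_pos (a + b) with h | h
  · have ha : a = 0 := by omega
    have hb : b = 0 := by omega
    subst ha
    subst hb
    rcases Nat.eq_zero_or_pos k with hk | hk
    · subst hk
      simp
    · simp [Nat.choose_eq_zero_of_lt hk]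
  · obtain ⟨m, hm⟩ : ∃ m, a + b = m + 1 := ⟨a + b - 1, by omega⟩
    have h2 := choose_down m k
    have h3 : ((a : ℤ) + b) = m + 1 := by
      exact_mod_cast hm
    rw [hm, h3]
    push_cast
    linear_combination -((-1) ^ (m + 1) * (k.choose a : ℤ) * (k.choose b : ℤ)) * h2

theorem ww_shift (k a b : ℕ) :
    ((a : ℤ) - k) * ww k a b
      = (-1) ^ (a + 1 + b) * ((a : ℤ) + 1) * (k.choose (a + 1) : ℤ) * (k.choose b : ℤ)
        * ((a + b).choose k : ℤ) := by
  unfold ww cc
  have h1 := choose_up k a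
  push_cast
  rw [pow_add, pow_add, pow_add, pow_one]
  linear_combination ((-1) ^ a * (-1) ^ b * (k.choose b : ℤ) * ((a + b).choose k : ℤ)) * h1

theorem cc_symm (a b k : ℕ) : cc a b k = cc b a k := by
  unfold cc
  rw [Nat.add_comm a b]
  ring

theorem ww_symm (k a b : ℕ) : ww k a b = ww k b a := by
  unfold ww
  rw [cc_symm, Nat.add_comm]

/-- one shifted sum -/
theorem shift_sum {n k : ℕ} (hk : k ≤ n) (b : ℕ) (X : R) :
    ∑ a ∈ range (n + 1), ((((a : ℤ) - k) * ww k a b : ℤ) : R) * X ^ (a + 1)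
      = ∑ a ∈ range (n + 1), (((-1) ^ (a + b) * (a : ℤ) * (k.choose a : ℤ) * (k.choose b : ℤ)
        * ((a + b - 1).choose k : ℤ) : ℤ) : R) * X ^ a := by
  rw [sum_range_succ' (fun a => (((-1) ^ (a + b) * (a : ℤ) * (k.choose a : ℤ) * (k.choose b : ℤ)
        * ((a + b - 1).choose k : ℤ) : ℤ) : R) * X ^ a) n, sum_range_succ]
  have h0 : ((((n : ℤ) - k) * ww k n b : ℤ) : R) * X ^ (n + 1) = 0 := by
    rw [ww_shift, Nat.choose_eq_zero_of_lt (by omega : k < n + 1)]
    simp
  rw [h0]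
  simp only [Nat.cast_zero, mul_zero, zero_mul, Int.cast_zero, add_zero]
  apply sum_congr rfl
  intro a _
  rw [ww_shift]
  have : a + 1 + b - 1 = a + b := by omega
  rw [this]
  push_cast
  ring

/-- the Euler type identity for the double sum -/
theorem EE_deriv {n k : ℕ} (hk : k ≤ n) (X Y : R) :
    ∑ a ∈ range (n + 1), ∑ b ∈ range (n + 1),
        ((1 - X) * a + (1 - Y) * b) * ((-1) ^ (a + b) * (cc a b k : R) * X ^ a * Y ^ b)
      = (k : R) * (1 - X - Y) * EE n k X Y := by
  have e0 : ∀ a b : ℕ, ((ww k a b : ℤ) : R) = (-1) ^ (a + b) * (cc a b k : R) := by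
    intro a b
    unfold ww
    push_cast
    ring
  have key : ∑ a ∈ range (n + 1), ∑ b ∈ range (n + 1),
      ((((a : ℤ) + b - k) * ww k a b : ℤ) : R) * X ^ a * Y ^ b
      = ∑ a ∈ range (n + 1), ∑ b ∈ range (n + 1),
          ((((a : ℤ) - k) * ww k a b : ℤ) : R) * X ^ (a + 1) * Y ^ b
        + ∑ a ∈ range (n + 1), ∑ b ∈ range (n + 1),
          ((((b : ℤ) - k) * ww k a b : ℤ) : R) * X ^ a * Y ^ (b + 1) := by
    have s1 : ∑ a ∈ range (n + 1), ∑ b ∈ range (n + 1),
          ((((a : ℤ) - k) * ww k a b : ℤ) : R) * X ^ (a + 1) * Y ^ b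
        = ∑ a ∈ range (n + 1), ∑ b ∈ range (n + 1),
          (((-1) ^ (a + b) * (a : ℤ) * (k.choose a : ℤ) * (k.choose b : ℤ)
            * ((a + b - 1).choose k : ℤ) : ℤ) : R) * X ^ a * Y ^ b := by
      rw [sum_comm]
      conv_rhs => rw [sum_comm]
      apply sum_congr rfl
      intro b _
      rw [← sum_mul, ← sum_mul, shift_sum hk]
    have s2 : ∑ a ∈ range (n + 1), ∑ b ∈ range (n + 1),
          ((((b : ℤ) - k) * ww k a b : ℤ) : R) * X ^ a * Y ^ (b + 1)
        = ∑ a ∈ range (n + 1), ∑ b ∈ range (n + 1),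
          (((-1) ^ (a + b) * (b : ℤ) * (k.choose a : ℤ) * (k.choose b : ℤ)
            * ((a + b - 1).choose k : ℤ) : ℤ) : R) * X ^ a * Y ^ b := by
      apply sum_congr rfl
      intro a _
      have h := shift_sum (R := R) hk a Y
      have g1 : ∀ b ∈ range (n + 1), ((((b : ℤ) - k) * ww k a b : ℤ) : R) * X ^ a * Y ^ (b + 1)
          = (((((b : ℤ) - k) * ww k b a : ℤ) : R) * Y ^ (b + 1)) * X ^ a := by
        intro b _
        rw [ww_symm k a b]
        ring
      have g2 : ∀ b ∈ range (n + 1),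
          (((-1) ^ (a + b) * (b : ℤ) * (k.choose a : ℤ) * (k.choose b : ℤ)
            * ((a + b - 1).choose k : ℤ) : ℤ) : R) * X ^ a * Y ^ b
          = ((((-1) ^ (b + a) * (b : ℤ) * (k.choose b : ℤ) * (k.choose a : ℤ)
            * ((b + a - 1).choose k : ℤ) : ℤ) : R) * Y ^ b) * X ^ a := by
        intro b _
        rw [Nat.add_comm b a]
        push_cast
        ring
      rw [sum_congr rfl g1, sum_congr rfl g2, ← sum_mul, ← sum_mul, h]
    rw [s1, s2, ← sum_add_distrib]
    apply sum_congr rfl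
    intro a _
    rw [← sum_add_distrib]
    apply sum_congr rfl
    intro b _
    rw [ww_step]
    push_cast
    ring
  have lhs : ∑ a ∈ range (n + 1), ∑ b ∈ range (n + 1),
        ((1 - X) * a + (1 - Y) * b) * ((-1) ^ (a + b) * (cc a b k : R) * X ^ a * Y ^ b)
      - (k : R) * (1 - X - Y) * EE n k X Y
      = ∑ a ∈ range (n + 1), ∑ b ∈ range (n + 1),
      ((((a : ℤ) + b - k) * ww k a b : ℤ) : R) * X ^ a * Y ^ b
      - (∑ a ∈ range (n + 1), ∑ b ∈ range (n + 1),
          ((((a : ℤ) - k) * ww k a b : ℤ) : R) * X ^ (a + 1) * Y ^ b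
        + ∑ a ∈ range (n + 1), ∑ b ∈ range (n + 1),
          ((((b : ℤ) - k) * ww k a b : ℤ) : R) * X ^ a * Y ^ (b + 1)) := by
    unfold EE
    rw [mul_sum, ← sum_sub_distrib, ← sum_add_distrib, ← sum_sub_distrib]
    apply sum_congr rfl
    intro a _
    rw [mul_sum, ← sum_sub_distrib, ← sum_add_distrib, ← sum_sub_distrib]
    apply sum_congr rfl
    intro b _
    push_cast
    rw [e0]
    ring
  rw [key, sub_self, sub_eq_zero] at lhs
  exact lhs

theorem TP_mul (n : ℕ) (X Y : R) :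
    (1 - X) * TP n X * PP n Y + (1 - Y) * PP n X * TP n Y
      = (1 - X - Y) * ∑ k ∈ range (n + 1), (k : R) * ((AA n k : R) * EE n k X Y) := by
  have h1 : (1 - X) * TP n X * PP n Y + (1 - Y) * PP n X * TP n Y
      = ∑ a ∈ range (n + 1), ∑ b ∈ range (n + 1), ((1 - X) * a + (1 - Y) * b)
        * (((AA n a : R) * (AA n b : R)) * ((-1) ^ (a + b) * X ^ a * Y ^ b)) := by
    unfold TP PP
    rw [mul_assoc, sum_mul_sum, mul_assoc, sum_mul_sum, mul_sum, mul_sum, ← sum_add_distrib]
    apply sum_congr rfl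
    intro a _
    rw [mul_sum, mul_sum, ← sum_add_distrib]
    apply sum_congr rfl
    intro b _
    ring
  rw [h1]
  have h2 : ∀ a ∈ range (n + 1), ∀ b ∈ range (n + 1), ((1 - X) * a + (1 - Y) * b)
        * (((AA n a : R) * (AA n b : R)) * ((-1) ^ (a + b) * X ^ a * Y ^ b))
      = ∑ k ∈ range (n + 1), (AA n k : R) * (((1 - X) * a + (1 - Y) * b)
          * ((-1) ^ (a + b) * (cc a b k : R) * X ^ a * Y ^ b)) := by
    intro a ha b hb
    rw [mem_range] at ha hb
    have h := AA_mul' (n := n) (a := a) (b := b) (by omega) (by omega)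
    have h' : (AA n a : R) * (AA n b : R) = ∑ k ∈ range (n + 1), (AA n k : R) * (cc a b k : R) := by
      have := congrArg (Int.cast : ℤ → R) h
      push_cast at this
      exact this
    rw [h', sum_mul, mul_sum]
    apply sum_congr rfl
    intro k _
    ring
  rw [sum_congr rfl (fun a ha => sum_congr rfl (h2 a ha))]
  have h3 : ∀ a ∈ range (n + 1),
      ∑ b ∈ range (n + 1), ∑ k ∈ range (n + 1), (AA n k : R) * (((1 - X) * a + (1 - Y) * b)
          * ((-1) ^ (a + b) * (cc a b k : R) * X ^ a * Y ^ b))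
      = ∑ k ∈ range (n + 1), ∑ b ∈ range (n + 1), (AA n k : R) * (((1 - X) * a + (1 - Y) * b)
          * ((-1) ^ (a + b) * (cc a b k : R) * X ^ a * Y ^ b)) := by
    intro a _
    exact sum_comm
  rw [sum_congr rfl h3, sum_comm, mul_sum]
  apply sum_congr rfl
  intro k hk
  rw [mem_range] at hk
  have h4 := EE_deriv (R := R) (n := n) (k := k) (by omega) X Y
  calc ∑ a ∈ range (n + 1), ∑ b ∈ range (n + 1), (AA n k : R) * (((1 - X) * a + (1 - Y) * b)
          * ((-1) ^ (a + b) * (cc a b k : R) * X ^ a * Y ^ b))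
      = (AA n k : R) * ∑ a ∈ range (n + 1), ∑ b ∈ range (n + 1), (((1 - X) * a + (1 - Y) * b)
          * ((-1) ^ (a + b) * (cc a b k : R) * X ^ a * Y ^ b)) := by
        rw [mul_sum]
        apply sum_congr rfl
        intro a _
        rw [mul_sum]
    _ = _ := by
        rw [h4]
        ring

end ring

end Pool.Agent.CTS
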