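import Pool.Agent.CTS.Fr
import Pool.Agent.CTS.Eval

/-!
# The constants
-/

set_option autoImplicit false

namespace Pool.Agent.CTS

variable {R : Type*} [CommRing R]

/-- the first modulus -/
def sS (g w : R) : R := g - w - 2 * w * g

/-- the second modulus -/
def tT (g w : R) : R := 4 - 3 * g + 3 * w - 2 * w * g

/-- a square root of `-15` -/
def dD (g w : R) : R := (1 + 2 * w) * (2 * g - 1)

variable {g w : R}

theorem sS_sq (hg : g ^ 2 = g + 1) (hw : w ^ 2 = -1 - w) : sS g w ^ 2 = -4 - 7 * g - 9 * w - 14 * w * g := by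
  simp only [sS]
  linear_combination (1 - 4 * w + 4 * w ^ 2) * hg + (5 + 8 * g) * hw

theorem tT_sq (hg : g ^ 2 = g + 1) (hw : w ^ 2 = -1 - w) : tT g w ^ 2 = 12 - 7 * g - 14 * w * g + 23 * w := by
  simp only [tT]
  linear_combination (9 + 12 * w + 4 * w ^ 2) * hg + (13 - 8 * g) * hw

theorem four_s (hg : g ^ 2 = g + 1) (hw : w ^ 2 = -1 - w) : 4 * sS g w = tT g w ^ 2 * (1 + sS g w) ^ 2 := by
  simp only [sS, tT]
  linear_combination (11 - 3 * g - 14 * w - 8 * g * w - 9 * g ^ 2 - 34 * w ^ 2 + 8 * g * w ^ 2 + 24 * g ^ 2 * w + 32 * g * w ^ 3 + 8 * g ^ 2 * w ^ 2 + 8 * w ^ 4 + 16 * g * w ^ 4 - 32 * g ^ 2 * w ^ 3 - 16 * g ^ 2 * w ^ 4) * hg + (-5 + 4 * g - 5 * w - w ^ 2) * hw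

theorem four_t (hg : g ^ 2 = g + 1) (hw : w ^ 2 = -1 - w) : 4 * tT g w = sS g w ^ 2 * (1 + tT g w) ^ 2 := by
  simp only [sS, tT]
  linear_combination (-13 + 21 * g - 6 * w - 40 * g * w - 9 * g ^ 2 + 30 * w ^ 2 - 24 * g * w ^ 2 + 24 * g ^ 2 * w + 32 * w ^ 3 + 32 * g * w ^ 3 + 8 * g ^ 2 * w ^ 2 + 8 * w ^ 4 + 16 * g * w ^ 4 - 32 * g ^ 2 * w ^ 3 - 16 * g ^ 2 * w ^ 4) * hg + (3 - 4 * g + 3 * w - w ^ 2) * hw

theorem two_c (hg : g ^ 2 = g + 1) (hw : w ^ 2 = -1 - w) : 2 * ((1 + sS g w) * (1 + tT g w)) = 1 - dD g w := by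
  simp only [sS, tT, dD]
  linear_combination (-6 + 8 * w + 8 * w ^ 2) * hg + (2) * hw

theorem d_sq (hg : g ^ 2 = g + 1) (hw : w ^ 2 = -1 - w) : dD g w ^ 2 = -15 := by
  simp only [dD]
  linear_combination (4 + 16 * w + 16 * w ^ 2) * hg + (20) * hw

theorem one_xy (hg : g ^ 2 = g + 1) (hw : w ^ 2 = -1 - w) :
    1 - sS g w ^ 2 - tT g w ^ 2 = 7 * dD g w := by
  rw [sS_sq hg hw, tT_sq hg hw]
  simp only [dD]
  linear_combination (0) * hg + (0) * hw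

theorem x1y (hg : g ^ 2 = g + 1) (hw : w ^ 2 = -1 - w) :
    sS g w ^ 2 * (1 - tT g w ^ 2) = 16 * w ^ 2 := by
  rw [sS_sq hg hw, tT_sq hg hw]
  linear_combination (-49 - 196 * w - 196 * w ^ 2) * hg + (-5) * hw

theorem y1x (hg : g ^ 2 = g + 1) (hw : w ^ 2 = -1 - w) :
    tT g w ^ 2 * (1 - sS g w ^ 2) = 16 * w := by
  rw [sS_sq hg hw, tT_sq hg hw]
  linear_combination (-49 - 196 * w - 196 * w ^ 2) * hg + (11) * hw

theorem sum16 (hg : g ^ 2 = g + 1) (hw : w ^ 2 = -1 - w) :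
    sS g w ^ 2 * (1 - tT g w ^ 2) + tT g w ^ 2 * (1 - sS g w ^ 2) = -16 := by
  rw [x1y hg hw, y1x hg hw]
  linear_combination 16 * hw

theorem prod256 (hg : g ^ 2 = g + 1) (hw : w ^ 2 = -1 - w) :
    (1 - sS g w ^ 2) * (1 - tT g w ^ 2) * (sS g w ^ 2 * tT g w ^ 2) = 256 := by
  have e : (1 - sS g w ^ 2) * (1 - tT g w ^ 2) * (sS g w ^ 2 * tT g w ^ 2)
      = (sS g w ^ 2 * (1 - tT g w ^ 2)) * (tT g w ^ 2 * (1 - sS g w ^ 2)) := by ring
  rw [e, x1y hg hw, y1x hg hw]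
  linear_combination (256 * (w - 1)) * hw


/-- `Fr` of the constants -/
theorem Fr_s {p : ℕ} (hp : p.Prime) {g' w' : R} (hg : Fr p g g') (hw : Fr p w w') :
    Fr p (sS g w) (sS g' w') := by
  unfold sS
  have h2 := Fr.int (R := R) hp 2
  push_cast at h2
  exact (hg.sub hp hw).sub hp ((h2.mul hw).mul hg)

theorem Fr_t {p : ℕ} (hp : p.Prime) {g' w' : R} (hg : Fr p g g') (hw : Fr p w w') :
    Fr p (tT g w) (tT g' w') := by
  unfold tT
  have h2 := Fr.int (R := R) hp 2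
  have h3 := Fr.int (R := R) hp 3
  have h4 := Fr.int (R := R) hp 4
  push_cast at h2 h3 h4
  exact ((h4.sub hp (h3.mul hg)).add hp (h3.mul hw)).sub hp ((h2.mul hw).mul hg)

theorem Fr_d {p : ℕ} (hp : p.Prime) {g' w' : R} (hg : Fr p g g') (hw : Fr p w w') :
    Fr p (dD g w) (dD g' w') := by
  unfold dD
  have h2 := Fr.int (R := R) hp 2
  push_cast at h2
  exact (Fr.one.add hp (h2.mul hw)).mul ((h2.mul hg).sub hp Fr.one)

end Pool.Agent.CTS
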