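import Pool.Agent.CTS.Third
import Mathlib.Algebra.QuadraticAlgebra.Defs

/-!
# The sums in terms of `PP` and `TP`
-/

set_option autoImplicit false

namespace Pool.Agent.CTS

open Finset

/-- the sum `S(p)` -/
noncomputable def Ssum (m : ℕ) : ℤ :=
  ∑ k ∈ range m, (-1) ^ k * ((k.centralBinom : ℕ) : ℤ) ^ 2 * tri k

/-- the sum `S'(p)` -/
noncomputable def Dsum (m : ℕ) : ℤ :=
  ∑ k ∈ range m, (-1) ^ k * (105 * (k : ℤ) + 44) * ((k.centralBinom : ℕ) : ℤ) ^ 2 * tri k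

section ring

variable {R : Type*} [CommRing R] {p n : ℕ}

theorem sq_R (hp : p.Prime) (hn : p = 2 * n + 1) (h0 : (p : R) ^ 2 = 0) {k : ℕ} (hk : k ≤ n) :
    (-1) ^ k * ((k.centralBinom : ℕ) : R) ^ 2 = (AA n k : R) * 16 ^ k := by
  have h := cong_sq hp hn hk
  have h1 : ((((k.centralBinom : ℕ) : ℤ) ^ 2 : ℤ) : ZMod (p ^ 2))
      = (((-16) ^ k * (AA n k : ℤ) : ℤ) : ZMod (p ^ 2)) := by
    push_cast
    exact h
  have h2 := cast_zmod h0 h1
  push_cast at h2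
  rw [h2]
  have h3 : (-1 : R) ^ k * (-16) ^ k = 16 ^ k := by
    rw [← mul_pow]
    norm_num
  linear_combination (AA n k : R) * h3

theorem zero_R (hp : p.Prime) (hn : p = 2 * n + 1) (h0 : (p : R) ^ 2 = 0) {k : ℕ} (hk : n < k)
    (hkp : k < p) : ((k.centralBinom : ℕ) : R) ^ 2 = 0 := by
  have h := cong_zero hp hn hk hkp
  have h1 : ((((k.centralBinom : ℕ) : ℤ) ^ 2 : ℤ) : ZMod (p ^ 2)) = ((0 : ℤ) : ZMod (p ^ 2)) := by
    push_cast
    exact h
  have h2 := cast_zmod h0 h1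
  push_cast at h2
  exact h2

theorem sum_cut (hp : p.Prime) (hn : p = 2 * n + 1) (h0 : (p : R) ^ 2 = 0) (f : ℕ → R) :
    ∑ k ∈ range p, (-1) ^ k * f k * ((k.centralBinom : ℕ) : R) ^ 2 * (tri k : R)
      = ∑ k ∈ range (n + 1), f k * ((AA n k : R) * (16 ^ k * (tri k : R))) := by
  have hsub : range (n + 1) ⊆ range p := by
    intro k
    simp only [mem_range]
    omega
  rw [← sum_subset hsub]
  · apply sum_congr rfl
    intro k hk
    rw [mem_range] at hk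
    have := sq_R hp hn h0 (by omega : k ≤ n)
    linear_combination (f k * (tri k : R)) * this
  · intro k hk hk2
    rw [mem_range] at hk hk2
    rw [zero_R hp hn h0 (by omega) hk]
    ring

theorem S_eq (hp : p.Prime) (hn : p = 2 * n + 1) (h0 : (p : R) ^ 2 = 0) (h2 : IsUnit (2 : R))
    {g w : R} (hg : g ^ 2 = g + 1) (hw : w ^ 2 = -1 - w) :
    ((Ssum p : ℤ) : R) = PP n (sS g w ^ 2) * PP n (tT g w ^ 2) := by
  rw [PP_eval n h2 (sum16 hg hw) (prod256 hg hw)]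
  unfold Ssum
  push_cast
  have := sum_cut hp hn h0 (fun _ => (1 : R))
  simp only [mul_one, one_mul] at this
  exact this

theorem D_eq (hp : p.Prime) (hn : p = 2 * n + 1) (h0 : (p : R) ^ 2 = 0) (h2 : IsUnit (2 : R))
    {g w : R} (hg : g ^ 2 = g + 1) (hw : w ^ 2 = -1 - w) :
    ((Dsum p : ℤ) : R) = 44 * (PP n (sS g w ^ 2) * PP n (tT g w ^ 2))
      - dD g w * ((1 - sS g w ^ 2) * TP n (sS g w ^ 2) * PP n (tT g w ^ 2)
        + (1 - tT g w ^ 2) * PP n (sS g w ^ 2) * TP n (tT g w ^ 2)) := by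
  rw [PP_eval n h2 (sum16 hg hw) (prod256 hg hw), TP_eval n h2 (sum16 hg hw) (prod256 hg hw),
    one_xy hg hw]
  unfold Dsum
  push_cast
  have := sum_cut hp hn h0 (fun k => (105 * (k : R) + 44))
  rw [this]
  have dd := d_sq hg hw
  have e : ∑ k ∈ range (n + 1), (105 * (k : R) + 44) * ((AA n k : R) * (16 ^ k * (tri k : R)))
      = 105 * ∑ k ∈ range (n + 1), (k : R) * ((AA n k : R) * (16 ^ k * (tri k : R)))
        + 44 * ∑ k ∈ range (n + 1), (AA n k : R) * (16 ^ k * (tri k : R)) := by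
    rw [mul_sum, mul_sum, ← sum_add_distrib]
    apply sum_congr rfl
    intro k _
    ring
  rw [e]
  linear_combination (7 * ∑ k ∈ range (n + 1), (k : R) * ((AA n k : R) * (16 ^ k * (tri k : R)))) * dd

end ring

/-- the ring -/
abbrev AR (p : ℕ) : Type :=
  QuadraticAlgebra (QuadraticAlgebra (ZMod (p ^ 2)) 1 1) (-1) (-1)

/-- the golden ratio -/
def gA (p : ℕ) : AR p := ⟨⟨0, 1⟩, 0⟩

/-- the cube root of unity -/
def wA (p : ℕ) : AR p := ⟨0, 1⟩

theorem gA_sq (p : ℕ) : gA p ^ 2 = gA p + 1 := by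
  rw [pow_two]
  unfold gA
  ext <;> simp [QuadraticAlgebra.re_one, QuadraticAlgebra.im_one]

theorem wA_sq (p : ℕ) : wA p ^ 2 = -1 - wA p := by
  rw [pow_two]
  unfold wA
  ext <;> simp [QuadraticAlgebra.re_one, QuadraticAlgebra.im_one]

theorem int_eq_zero {p : ℕ} {m : ℤ} (h : (m : AR p) = 0) : ((p : ℤ) ^ 2) ∣ m := by
  have h1 := congrArg QuadraticAlgebra.re h
  have h2 := congrArg QuadraticAlgebra.re h1
  simp only [QuadraticAlgebra.re_intCast, QuadraticAlgebra.re_zero] at h2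
  rw [ZMod.intCast_zmod_eq_zero_iff_dvd] at h2
  push_cast at h2
  exact h2

theorem p_sq_AR (p : ℕ) : ((p : ℕ) : AR p) ^ 2 = 0 := by
  have h : ((p : ℕ) : AR p) = algebraMap (ZMod (p ^ 2)) (AR p) ((p : ℕ) : ZMod (p ^ 2)) := by
    rw [map_natCast]
  rw [h, ← map_pow, p_sq_zero, map_zero]

theorem unit_AR {p m : ℕ} (hp : p.Prime) (h : ¬ p ∣ m) : IsUnit ((m : ℕ) : AR p) := by
  have h1 : IsUnit ((m : ℕ) : ZMod (p ^ 2)) := by
    rw [ZMod.isUnit_iff_coprime]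
    exact Nat.Coprime.pow_right 2 (Nat.coprime_comm.1 ((Nat.Prime.coprime_iff_not_dvd hp).2 h))
  have h2 := h1.map (algebraMap (ZMod (p ^ 2)) (AR p))
  rwa [map_natCast] at h2

/-- the third case of (a) -/
theorem third_case {p : ℕ} (hp : p.Prime)
    (h : p % 15 = 7 ∨ p % 15 = 11 ∨ p % 15 = 13 ∨ p % 15 = 14) : ((p : ℤ) ^ 2) ∣ Ssum p := by
  have hodd : p % 2 = 1 := by
    rcases hp.eq_two_or_odd with h1 | h1
    · subst h1
      omega
    · exact h1
  obtain ⟨n, hn⟩ : ∃ n, p = 2 * n + 1 := ⟨p / 2, by omega⟩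
  have h3 : ¬ p ∣ 2 := by
    intro h4
    have := (Nat.prime_dvd_prime_iff_eq hp Nat.prime_two).1 h4
    omega
  have h15 : ¬ p ∣ 15 := by
    intro h4
    have h5 : p ∣ 3 * 5 := h4
    rcases (Nat.Prime.dvd_mul hp).1 h5 with h6 | h6
    · have := (Nat.prime_dvd_prime_iff_eq hp Nat.prime_three).1 h6
      omega
    · have := (Nat.prime_dvd_prime_iff_eq hp Nat.prime_five).1 h6
      omega
  have u2 : IsUnit (2 : AR p) := by
    have := unit_AR hp h3
    push_cast at this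
    exact this
  have u15 : IsUnit (15 : AR p) := by
    have := unit_AR hp h15
    push_cast at this
    exact this
  apply int_eq_zero
  rw [S_eq hp hn (p_sq_AR p) u2 (gA_sq p) (wA_sq p)]
  have hcase : (p % 3 = 1 ∧ (p % 5 = 2 ∨ p % 5 = 3)) ∨ (p % 3 = 2 ∧ (p % 5 = 1 ∨ p % 5 = 4)) := by
    omega
  rcases hcase with ⟨c3, c5⟩ | ⟨c3, c5⟩
  · apply inert_prod hp hn (p_sq_AR p) u2 u15 (gA_sq p) (wA_sq p) (g' := 1 - gA p) (w' := wA p)
    · linear_combination gA_sq p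
    · exact wA_sq p
    · exact Fr_g2 (gA_sq p) u2 hp hn c5
    · exact Fr_w1 (wA_sq p) c3
    · unfold dD
      ring
  · apply inert_prod hp hn (p_sq_AR p) u2 u15 (gA_sq p) (wA_sq p) (g' := gA p)
      (w' := -1 - wA p)
    · exact gA_sq p
    · linear_combination wA_sq p
    · exact Fr_g1 (gA_sq p) u2 hp hn c5
    · exact Fr_w2 (wA_sq p) c3
    · unfold dD
      ring

end Pool.Agent.CTS
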