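import Pool.Agent.CTS.LC

/-!
# The inert case: everything vanishes modulo `p`
-/

set_option autoImplicit false

namespace Pool.Agent.CTS

open Finset

variable {R : Type*} [CommRing R] {p n : ℕ}

theorem h_Gk (hp : p.Prime) (hn : p = 2 * n + 1) (h0 : (p : R) ^ 2 = 0) (h2 : IsUnit (2 : R))
    {s Y : R} (h : 4 * s = Y * (1 + s) ^ 2) :
    Cg p (HH n (s ^ 2)) ((1 + s) ^ (2 * n) * HH n Y) := by
  have h1 := land_cong hp hn h0 h
  obtain ⟨r, hr⟩ := PP_HH hp hn Y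
  apply Cg.cancel h2
  refine ⟨(1 + s) ^ (2 * n) * r, ?_⟩
  rw [h1, hr]
  ring

theorem inert_zero (hp : p.Prime) (hn : p = 2 * n + 1) (h0 : (p : R) ^ 2 = 0)
    (h2 : IsUnit (2 : R)) (h15 : IsUnit (15 : R)) {g w g' w' : R} (hg : g ^ 2 = g + 1)
    (hw : w ^ 2 = -1 - w) (hg' : g' ^ 2 = g' + 1) (hw' : w' ^ 2 = -1 - w')
    (fg : Fr p g g') (fw : Fr p w w') (hd : dD g' w' = -dD g w) :
    Cg p (HH n (sS g w ^ 2)) 0 ∧ Cg p (HH n (tT g w ^ 2)) 0 := by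
  have a1 := h_Gk hp hn h0 h2 (four_s hg hw)
  have a2 := h_Gk hp hn h0 h2 (four_t hg hw)
  set s := sS g w with hs
  set t := tT g w with ht
  have f1 : Fr p (1 + s) (1 + sS g' w') := Fr.one.add hp (Fr_s hp fg fw)
  have f2 : Fr p (1 + t) (1 + tT g' w') := Fr.one.add hp (Fr_t hp fg fw)
  have f3 := f1.mul f2
  have c1 := two_c hg hw
  have c2 := two_c hg' hw'
  rw [hd] at c2
  have dd := d_sq hg hw
  have b1 : Cg p (HH n (s ^ 2)) ((1 + s) ^ (2 * n) * ((1 + t) ^ (2 * n) * HH n (s ^ 2))) :=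
    a1.trans (a2.mul_left _)
  have b2 : Cg p ((1 - dD g w) * HH n (s ^ 2)) ((1 + dD g w) * HH n (s ^ 2)) := by
    have b3 := b1.mul_left (2 * ((1 + s) * (1 + t)))
    have e1 : 2 * ((1 + s) * (1 + t)) * ((1 + s) ^ (2 * n) * ((1 + t) ^ (2 * n) * HH n (s ^ 2)))
        = 2 * HH n (s ^ 2) * ((1 + s) * (1 + t)) ^ p := by
      rw [hn, pow_succ, mul_pow]
      ring
    rw [e1, c1] at b3
    have b4 := Cg.mul_left (2 * HH n (s ^ 2)) f3
    have e2 : 2 * HH n (s ^ 2) * ((1 + sS g' w') * (1 + tT g' w'))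
        = (1 + dD g w) * HH n (s ^ 2) := by
      linear_combination HH n (s ^ 2) * c2
    rw [e2] at b4
    exact b3.trans b4
  have b5 : Cg p (HH n (s ^ 2)) 0 := by
    have h30 : IsUnit ((2 : R) * 15) := h2.mul h15
    apply Cg.cancel h30
    have b6 := b2.mul_left (-dD g w)
    have b7 := (b6.symm).sub (Cg.refl (p := p) (-dD g w * ((1 - dD g w) * HH n (s ^ 2))))
    have e3 : -dD g w * ((1 + dD g w) * HH n (s ^ 2)) - -dD g w * ((1 - dD g w) * HH n (s ^ 2))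
        = 2 * 15 * HH n (s ^ 2) := by
      linear_combination (-2 * HH n (s ^ 2)) * dd
    rw [e3, sub_self] at b7
    rwa [mul_zero]
  refine ⟨b5, ?_⟩
  have b8 := a2.trans (b5.mul_left _)
  rwa [mul_zero] at b8

theorem inert_prod (hp : p.Prime) (hn : p = 2 * n + 1) (h0 : (p : R) ^ 2 = 0)
    (h2 : IsUnit (2 : R)) (h15 : IsUnit (15 : R)) {g w g' w' : R} (hg : g ^ 2 = g + 1)
    (hw : w ^ 2 = -1 - w) (hg' : g' ^ 2 = g' + 1) (hw' : w' ^ 2 = -1 - w')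
    (fg : Fr p g g') (fw : Fr p w w') (hd : dD g' w' = -dD g w) :
    PP n (sS g w ^ 2) * PP n (tT g w ^ 2) = 0 := by
  obtain ⟨⟨r1, h1⟩, ⟨r2, h2'⟩⟩ := inert_zero hp hn h0 h2 h15 hg hw hg' hw' fg fw hd
  obtain ⟨r3, h3⟩ := PP_HH hp hn (sS g w ^ 2)
  obtain ⟨r4, h4⟩ := PP_HH hp hn (tT g w ^ 2)
  rw [h3, h4, h1, h2']
  linear_combination ((r1 + r3) * (r2 + r4)) * h0

end Pool.Agent.CTS
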