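import Pool.Agent.CTS.Cong
import Pool.Agent.CTS.Land

/-!
# A Wronskian modulo `p^2`

With `P = PP n`, `H = HH n`, `p = 2n+1` prime:
`2 (1-X) (H theta P - P theta H) = p X (H^2 - X^(2n))` modulo `p^2`.
-/

set_option autoImplicit false

namespace Pool.Agent.CTS

open Finset Polynomial

/-- `PP` as a polynomial -/
noncomputable def pP (n : ℕ) : ℤ[X] := PP n X

/-- `HH` as a polynomial -/
noncomputable def pH (n : ℕ) : ℤ[X] := HH n X

/-- `X d/dX` -/
noncomputable def th (f : ℤ[X]) : ℤ[X] := X * derivative f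

theorem th_coeff (f : ℤ[X]) (k : ℕ) : (th f).coeff k = (k : ℤ) * f.coeff k := by
  unfold th
  rcases k with _ | k
  · simp
  · rw [coeff_X_mul, coeff_derivative]
    push_cast
    ring

theorem th_mul (f g : ℤ[X]) : th (f * g) = th f * g + f * th g := by
  unfold th
  rw [derivative_mul]
  ring

theorem th_sub (f g : ℤ[X]) : th (f - g) = th f - th g := by
  unfold th
  rw [derivative_sub]
  ring

theorem th_add (f g : ℤ[X]) : th (f + g) = th f + th g := by
  unfold th
  rw [derivative_add]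
  ring

theorem pP_coeff (n k : ℕ) : (pP n).coeff k = (-1) ^ k * (AA n k : ℤ) := by
  unfold pP PP
  rw [finsetSum_coeff]
  have h : ∀ i ∈ range (n + 1), ((-1) ^ i * (AA n i : ℤ[X]) * X ^ i).coeff k
      = if k = i then (-1) ^ i * (AA n i : ℤ) else 0 := by
    intro i _
    have : ((-1) ^ i * (AA n i : ℤ[X]) * X ^ i) = C ((-1) ^ i * (AA n i : ℤ)) * X ^ i := by
      simp
    rw [this, coeff_C_mul_X_pow]
  rw [sum_congr rfl h, sum_ite_eq]
  split_ifs with h1
  · rfl
  · rw [mem_range, not_lt] at h1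
    rw [AA_big (by omega : n < k)]
    simp

theorem pH_coeff (n k : ℕ) : (pH n).coeff k = ((n.choose k : ℕ) : ℤ) ^ 2 := by
  unfold pH HH
  rw [finsetSum_coeff]
  have h : ∀ i ∈ range (n + 1), (((n.choose i : ℕ) : ℤ[X]) ^ 2 * X ^ i).coeff k
      = if k = i then ((n.choose i : ℕ) : ℤ) ^ 2 else 0 := by
    intro i _
    have : (((n.choose i : ℕ) : ℤ[X]) ^ 2 * X ^ i) = C (((n.choose i : ℕ) : ℤ) ^ 2) * X ^ i := by
      simp
    rw [this, coeff_C_mul_X_pow]
  rw [sum_congr rfl h, sum_ite_eq]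
  split_ifs with h1
  · rfl
  · rw [mem_range, not_lt] at h1
    rw [Nat.choose_eq_zero_of_lt (by omega : n < k)]
    simp

theorem ode_P (n : ℕ) : th (th (pP n))
    = X * (th (th (pP n)) + th (pP n) - C ((n : ℤ) * (n + 1)) * pP n) := by
  ext k
  rcases k with _ | k
  · rw [th_coeff]
    simp
  · rw [coeff_X_mul, coeff_sub, coeff_add, coeff_C_mul]
    simp only [th_coeff, pP_coeff]
    have h := AA_succ n k
    push_cast
    rw [pow_succ]
    linear_combination -((-1 : ℤ) ^ k) * h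

theorem ode_H (n : ℕ) : th (th (pH n))
    = X * (th (th (pH n)) - C (2 * (n : ℤ)) * th (pH n) + C ((n : ℤ) ^ 2) * pH n) := by
  ext k
  rcases k with _ | k
  · rw [th_coeff]
    simp
  · rw [coeff_X_mul, coeff_add, coeff_sub, coeff_C_mul, coeff_C_mul]
    simp only [th_coeff, pH_coeff]
    have h := choose_up n k
    push_cast
    linear_combination (((k : ℤ) + 1) * ((n.choose (k + 1) : ℕ) : ℤ)
      + ((n : ℤ) - k) * ((n.choose k : ℕ) : ℤ)) * h

/-- the Wronskian -/
noncomputable def wr (n : ℕ) : ℤ[X] := pH n * th (pP n) - pP n * th (pH n)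

theorem wr_th (n : ℕ) : (1 - X) * th (wr n) - X * wr n
    = C (2 * (n : ℤ) + 1) * X * (pP n * th (pH n) - C (n : ℤ) * (pH n * pP n)) := by
  have h1 : th (wr n) = pH n * th (th (pP n)) - pP n * th (th (pH n)) := by
    unfold wr
    rw [th_sub, th_mul, th_mul]
    ring
  have hP := ode_P n
  have hH := ode_H n
  rw [h1]
  unfold wr
  simp only [map_mul, map_add, map_pow, map_natCast, map_ofNat, map_one] at hP hH ⊢
  linear_combination pH n * hP - pP n * hH

theorem pP_deg (n : ℕ) : (pP n).natDegree ≤ n := by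
  rw [natDegree_le_iff_coeff_eq_zero]
  intro N hN
  rw [pP_coeff, AA_big hN]
  simp

theorem pH_deg (n : ℕ) : (pH n).natDegree ≤ n := by
  rw [natDegree_le_iff_coeff_eq_zero]
  intro N hN
  rw [pH_coeff, Nat.choose_eq_zero_of_lt hN]
  simp

theorem th_deg {f : ℤ[X]} {n : ℕ} (h : f.natDegree ≤ n) : (th f).natDegree ≤ n := by
  rw [natDegree_le_iff_coeff_eq_zero] at h ⊢
  intro N hN
  rw [th_coeff, h N hN, mul_zero]

theorem wr_coeff_top {n k : ℕ} (hk : 2 * n ≤ k) : (wr n).coeff k = 0 := by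
  unfold wr
  rw [coeff_sub]
  rcases Nat.eq_or_lt_of_le hk with h | h
  · subst h
    have e : 2 * n = n + n := by ring
    rw [e, coeff_mul_add_eq_of_natDegree_le (pH_deg n) (th_deg (pP_deg n)),
      coeff_mul_add_eq_of_natDegree_le (pP_deg n) (th_deg (pH_deg n)), th_coeff, th_coeff]
    ring
  · rw [coeff_eq_zero_of_natDegree_lt, coeff_eq_zero_of_natDegree_lt, sub_zero]
    · have := natDegree_mul_le_of_le (pP_deg n) (th_deg (pH_deg n))
      omega
    · have := natDegree_mul_le_of_le (pH_deg n) (th_deg (pP_deg n))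
      omega

theorem sq_coeff_top (n : ℕ) : (pH n ^ 2).coeff (2 * n) = 1 := by
  have e : 2 * n = n + n := by ring
  rw [pow_two, e, coeff_mul_add_eq_of_natDegree_le (pH_deg n) (pH_deg n), pH_coeff]
  simp

theorem sq_coeff_big {n k : ℕ} (hk : 2 * n < k) : (pH n ^ 2).coeff k = 0 := by
  rw [pow_two, coeff_eq_zero_of_natDegree_lt]
  have := natDegree_mul_le_of_le (pH_deg n) (pH_deg n)
  omega

theorem diff_dvd {p n : ℕ} (hp : p.Prime) (hn : p = 2 * n + 1) :
    ∃ K : ℤ[X], pP n = pH n + C (p : ℤ) * K := by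
  have h : C (p : ℤ) ∣ pP n - pH n := by
    rw [C_dvd_iff_dvd_coeff]
    intro k
    rw [coeff_sub, pP_coeff, pH_coeff]
    rcases Nat.lt_or_ge n k with hk | hk
    · rw [AA_big hk, Nat.choose_eq_zero_of_lt hk]
      simp
    · obtain ⟨r, hr⟩ := cong_p hp hn hk
      have h1 : (((-1) ^ k * (AA n k : ℤ) - ((n.choose k : ℕ) : ℤ) ^ 2 : ℤ) : ZMod p) = 0 := by
        have hdvd : p ∣ p ^ 2 := Dvd.intro_left p (by ring)
        have h2 := congrArg (ZMod.castHom hdvd (ZMod p)) hr
        simp only [map_mul, map_pow, map_neg, map_one, map_natCast, map_add] at h2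
        push_cast
        rw [h2]
        simp
      exact (ZMod.intCast_zmod_eq_zero_iff_dvd _ _).1 h1
  obtain ⟨K, hK⟩ := h
  exact ⟨K, by rw [← hK]; ring⟩

theorem wron_poly {p n : ℕ} (hp : p.Prime) (hn : p = 2 * n + 1) :
    C ((p : ℤ) ^ 2) ∣ 2 * (1 - X) * wr n - C (p : ℤ) * X * (pH n ^ 2 - X ^ (2 * n)) := by
  obtain ⟨K, hK⟩ := diff_dvd hp hn
  have hpn : (p : ℤ) = 2 * n + 1 := by
    rw [hn]
    push_cast
    ring
  have hnC : (C (2 * (n : ℤ) + 1) : ℤ[X]) = C (p : ℤ) := by rw [hpn]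
  set Q : ℤ[X] := 2 * (1 - X) * wr n - C (p : ℤ) * X * pH n ^ 2 with hQ
  have hth : th Q = C ((p : ℤ) ^ 2) * (2 * X * K * th (pH n) - X * pH n ^ 2
      - 2 * C (n : ℤ) * X * pH n * K) := by
    have h1 : th Q = 2 * ((1 - X) * th (wr n) - X * wr n) - C (p : ℤ) * X * pH n ^ 2
        - 2 * C (p : ℤ) * X * pH n * th (pH n) := by
      rw [hQ]
      unfold th
      simp only [derivative_sub, derivative_mul, derivative_one, derivative_X, derivative_C,
        derivative_pow, derivative_ofNat, Nat.cast_ofNat, map_ofNat]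
      ring
    rw [h1, wr_th, hnC, hK]
    have h3 : (C (p : ℤ) : ℤ[X]) = 2 * C (n : ℤ) + 1 := by
      rw [hpn]
      simp
    simp only [map_pow]
    linear_combination (C (p : ℤ) * X * pH n ^ 2) * h3
  have hW : wr n = C (p : ℤ) * (pH n * th K - K * th (pH n)) := by
    unfold wr
    have : th (pP n) = th (pH n) + C (p : ℤ) * th K := by
      rw [hK, th_add, th_mul]
      have : th (C (p : ℤ)) = 0 := by
        unfold th
        simp
      rw [this]
      ring
    rw [this, hK]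
    ring
  rw [C_dvd_iff_dvd_coeff]
  intro k
  have hexp : (2 * (1 - X) * wr n - C (p : ℤ) * X * (pH n ^ 2 - X ^ (2 * n)) : ℤ[X])
      = Q + C (p : ℤ) * X ^ (2 * n + 1) := by
    rw [hQ]
    ring
  rw [hexp, coeff_add, coeff_C_mul_X_pow]
  have hQk : (k : ℤ) * Q.coeff k = (p : ℤ) ^ 2 * (2 * X * K * th (pH n) - X * pH n ^ 2
      - 2 * C (n : ℤ) * X * pH n * K).coeff k := by
    rw [← th_coeff, hth, coeff_C_mul]
  have hQc : ∀ m : ℕ, Q.coeff (m + 1) = 2 * ((wr n).coeff (m + 1) - (wr n).coeff m)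
      - (p : ℤ) * (pH n ^ 2).coeff m := by
    intro m
    have : Q = C 2 * (wr n - X * wr n) - C (p : ℤ) * (X * pH n ^ 2) := by
      rw [hQ]
      have : (C 2 : ℤ[X]) = 2 := by simp
      rw [this]
      ring
    rw [this, coeff_sub, coeff_C_mul, coeff_C_mul, coeff_sub, coeff_X_mul, coeff_X_mul]
  rcases Nat.eq_zero_or_pos k with h0 | h0
  · subst h0
    rw [if_neg (by omega)]
    have : Q.coeff 0 = 0 := by
      rw [hQ]
      unfold wr th
      simp [mul_coeff_zero]
    rw [this]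
    simp
  · rcases Nat.lt_or_ge k p with h1 | h1
    · rw [if_neg (by omega), add_zero]
      have hcop : IsCoprime ((p : ℤ) ^ 2) (k : ℤ) := by
        apply IsCoprime.pow_left
        rw [Nat.isCoprime_iff_coprime]
        exact (Nat.Prime.coprime_iff_not_dvd hp).2 (Nat.not_dvd_of_pos_of_lt h0 h1)
      exact hcop.dvd_of_dvd_mul_left (Dvd.intro _ hQk.symm)
    · obtain ⟨m, rfl⟩ : ∃ m, k = m + 1 := ⟨k - 1, by omega⟩
      rw [hQc, wr_coeff_top (by omega), wr_coeff_top (by omega)]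
      rcases Nat.eq_or_lt_of_le (by omega : 2 * n ≤ m) with h2 | h2
      · subst h2
        rw [sq_coeff_top, if_pos rfl]
        simp
      · rw [sq_coeff_big h2, if_neg (by omega)]
        simp

section ring

variable {R : Type*} [CommRing R]

theorem PP_aeval (n : ℕ) (x : R) : aeval x (pP n) = PP n x := by
  unfold pP PP
  simp

theorem TP_aeval (n : ℕ) (x : R) : aeval x (th (pP n)) = TP n x := by
  unfold th pP PP TP
  rw [derivative_sum, mul_sum, map_sum]
  apply sum_congr rfl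
  intro i _
  have h1 : ((-1) ^ i * (AA n i : ℤ[X]) * X ^ i) = C ((-1) ^ i * (AA n i : ℤ)) * X ^ i := by
    simp
  rw [h1, derivative_C_mul]
  have h2 := X_deriv_pow i
  have h3 : (X : ℤ[X]) * (C ((-1) ^ i * (AA n i : ℤ)) * derivative (X ^ i))
      = C ((-1) ^ i * (AA n i : ℤ)) * ((i : ℤ[X]) * X ^ i) := by
    rw [← h2]
    ring
  rw [h3]
  simp
  ring

theorem HH_aeval (n : ℕ) (x : R) : aeval x (pH n) = HH n x := by
  unfold pH HH
  simp

theorem TH_aeval (n : ℕ) (x : R) : aeval x (th (pH n)) = TH n x := by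
  unfold th pH HH TH
  rw [derivative_sum, mul_sum, map_sum]
  apply sum_congr rfl
  intro i _
  have h1 : (((n.choose i : ℕ) : ℤ[X]) ^ 2 * X ^ i) = C (((n.choose i : ℕ) : ℤ) ^ 2) * X ^ i := by
    simp
  rw [h1, derivative_C_mul]
  have h2 := X_deriv_pow i
  have h3 : (X : ℤ[X]) * (C (((n.choose i : ℕ) : ℤ) ^ 2) * derivative (X ^ i))
      = C (((n.choose i : ℕ) : ℤ) ^ 2) * ((i : ℤ[X]) * X ^ i) := by
    rw [← h2]
    ring
  rw [h3]
  simp
  ring

/-- `PP = HH` modulo `p` -/
theorem PP_HH {p n : ℕ} (hp : p.Prime) (hn : p = 2 * n + 1) (x : R) :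
    ∃ r : R, PP n x = HH n x + (p : R) * r := by
  obtain ⟨K, hK⟩ := diff_dvd hp hn
  have := congrArg (aeval x) hK
  rw [map_add, map_mul, PP_aeval, HH_aeval] at this
  refine ⟨aeval x K, ?_⟩
  rw [this]
  simp

theorem TP_TH {p n : ℕ} (hp : p.Prime) (hn : p = 2 * n + 1) (x : R) :
    ∃ r : R, TP n x = TH n x + (p : R) * r := by
  obtain ⟨K, hK⟩ := diff_dvd hp hn
  have h1 : th (pP n) = th (pH n) + C (p : ℤ) * th K := by
    rw [hK, th_add, th_mul]
    have : th (C (p : ℤ)) = 0 := by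
      unfold th
      simp
    rw [this]
    ring
  have := congrArg (aeval x) h1
  rw [map_add, map_mul, TP_aeval, TH_aeval] at this
  refine ⟨aeval x (th K), ?_⟩
  rw [this]
  simp

/-- the Wronskian identity in a ring with `p^2 = 0` -/
theorem wron {p n : ℕ} (hp : p.Prime) (hn : p = 2 * n + 1) (h0 : (p : R) ^ 2 = 0) (x : R) :
    2 * (1 - x) * (HH n x * TP n x - PP n x * TH n x)
      = (p : R) * x * (HH n x ^ 2 - x ^ (2 * n)) := by
  obtain ⟨G, hG⟩ := wron_poly hp hn
  have := congrArg (aeval x) hG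
  unfold wr at this
  simp only [map_mul, map_sub, map_pow, map_one, aeval_X, PP_aeval, HH_aeval, TP_aeval, TH_aeval,
    map_ofNat] at this
  have hc : aeval x (C (p : ℤ)) = (p : R) := by simp
  rw [hc, h0, zero_mul, sub_eq_zero] at this
  exact this

end ring

end Pool.Agent.CTS
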